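import Pool.Agent.T9h51.RC.Rep
import Pool.Agent.T9h51.RC.Core

/-!
# The asymptotic formula for almost all members of the families of nearly minimal energy
-/

set_option autoImplicit false

namespace Pool.Agent.T9h51.RC

open Finset
open Pool.Agent.TH212.EH (En enum energy_enum)
open Pool.Agent.TH935.DF (HC fam_c)
open Pool.Agent.H373R2.T7 (energy)
open Pool.Agent.T9h51.PE (HoldsEn)

/-- the formula for the even numbers which are not too small with respect to the scale -/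
def PRep (ε : ℝ) (E T κ : ℕ) : ℕ → ℕ → Prop := fun Y n => 2 ∣ n → (Y : ℝ) / Real.log Y ^ κ ≤ n → Rep ε E T n

theorem holds_rep (ε : ℝ) (hε : 0 < ε) (hε1 : ε ≤ 1 / 2) (E T κ₁ h B C U : ℕ) : HoldsEn (PRep ε E T κ₁) h B C U := by
  classical
  obtain ⟨T', hT'⟩ : ∃ T', T' = E + T + 1 := ⟨_, rfl⟩
  obtain ⟨κ, hκ⟩ : ∃ κ, κ = κ₁ + T' + 1 := ⟨_, rfl⟩
  obtain ⟨n₁, h1⟩ := rep_of_HC ε hε hε1 E T κ
  obtain ⟨n₂, h2⟩ := fam_c h (κ + 1) 0 (C + T' + 1) 1 U (ε / 10) (by positivity) (by linarith)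
  obtain ⟨n₃, h3⟩ := Pool.Agent.H373R2.T7.ev_L' (2 ^ (κ + 1) + B * 2 ^ (E + T) + B + 2)
  obtain ⟨n₄, h4⟩ := Pool.Agent.H373R2.T7.ev_log' κ₁ 1
  refine ⟨n₁ ^ 2 + n₂ + n₃ + n₄ + B + 4, fun Y hY ι _ v hv hE => ?_⟩
  rcases isEmpty_or_nonempty ι with hem | hne
  · have e1 : (univ.filter (fun i : ι => ∃ n : ℕ, 0 < n ∧ (n : ℤ) = v i ∧ ¬ PRep ε E T κ₁ Y n)).card = 0 := by
      rw [card_eq_zero]
      exact eq_empty_of_isEmpty _
    rw [e1, Nat.cast_zero]
    exact div_nonneg (Nat.cast_nonneg _) (pow_nonneg (Real.log_natCast_nonneg _) _)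
  have hn1 : 0 ≤ n₁ ^ 2 := Nat.zero_le _
  have hY4 : 4 ≤ Y := by omega
  have hYr : (4 : ℝ) ≤ Y := by exact_mod_cast hY4
  have hY0 : (0 : ℝ) < Y := by linarith
  obtain ⟨L, hL⟩ : ∃ L, L = Real.log (Y : ℝ) := ⟨_, rfl⟩
  have hLbig := h3 Y (by omega)
  have hsq := h4 Y (by omega)
  rw [one_mul] at hsq
  rw [← hL] at hLbig hsq hE
  have hp1 : (0 : ℝ) < 2 ^ (κ + 1) := by positivity
  have hp2 : (0 : ℝ) ≤ B * 2 ^ (E + T) := by positivity
  have hB0 : (0 : ℝ) ≤ B := Nat.cast_nonneg _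
  have hL2 : 2 ≤ L := by linarith
  have hL1 : 1 ≤ L := by linarith
  have hL0 : 0 < L := by linarith
  have hLB : (B : ℝ) ≤ L := by linarith
  have hLT : (1 : ℝ) ≤ L ^ T' := one_le_pow₀ hL1
  -- the larger scale
  obtain ⟨N', hN'⟩ : ∃ N', N' = ⌈(Y : ℝ) * L ^ T'⌉₊ := ⟨_, rfl⟩
  have hN1 : (Y : ℝ) * L ^ T' ≤ N' := by rw [hN']; exact Nat.le_ceil _
  have hYY : (Y : ℝ) ≤ Y * L ^ T' := le_mul_of_one_le_right hY0.le hLT
  have hN2 : (N' : ℝ) ≤ 2 * (Y * L ^ T') := by
    have e1 : (N' : ℝ) < Y * L ^ T' + 1 := by rw [hN']; exact Nat.ceil_lt_add_one (by positivity)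
    linarith
  have hYN : (Y : ℝ) ≤ N' := hYY.trans hN1
  have hYNn : Y ≤ N' := by exact_mod_cast hYN
  have hlogN : L ≤ Real.log N' := by
    rw [hL]
    exact Real.log_le_log hY0 hYN
  obtain ⟨f, hinj, hsurj⟩ := enum ι
  obtain ⟨x, hx⟩ : ∃ x, x = Fintype.card ι := ⟨_, rfl⟩
  have hen : energy h x (fun m => v (f m)) ≤ En h v := by
    have e1 := energy_enum h v f 0 hinj
    rw [hx]
    simpa only [sub_zero] using e1
  rw [← hx] at hinj hsurj
  obtain ⟨S, hS⟩ : ∃ S : Finset ℕ, S = (Icc 1 x).filter (fun m => 0 < v (f m) ∧ Even (v (f m)) ∧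
    ¬ HC (ε / 10) (κ + 1) 0 1 N' (v (f m)).toNat) := ⟨_, rfl⟩
  have hBL : (B : ℝ) * Y ≤ Y * L ^ T' := by
    have e1 : (B : ℝ) ≤ L ^ T' := by
      calc (B : ℝ) ≤ L ^ 1 := by rw [pow_one]; exact hLB
        _ ≤ L ^ T' := pow_le_pow_right₀ hL1 (by omega)
    rw [mul_comm]
    exact mul_le_mul_of_nonneg_left e1 hY0.le
  have key := h2 N' (by omega) x (fun m => v (f m)) (by
    intro m _
    have e1 := hv (f m)
    have e2 : (B : ℤ) * Y ≤ N' := by
      have e3 : (B : ℝ) * Y ≤ N' := hBL.trans hN1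
      exact_mod_cast e3
    push_cast
    linarith) (by
    have e1 : (energy h x (fun m => v (f m)) : ℝ) ≤ En h v := by exact_mod_cast hen
    have e2 : (0 : ℝ) ≤ En h v := Nat.cast_nonneg _
    have e3 : (0 : ℝ) ≤ (x : ℝ) ^ (2 * h) := by positivity
    calc (energy h x (fun m => v (f m)) : ℝ) * N' ≤ En h v * (2 * (Y * L ^ T')) :=
          mul_le_mul e1 hN2 (Nat.cast_nonneg _) e2
      _ = 2 * L ^ T' * ((En h v : ℝ) * Y) := by ring
      _ ≤ 2 * L ^ T' * (L ^ C * (x : ℝ) ^ (2 * h)) := by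
          apply mul_le_mul_of_nonneg_left _ (by positivity)
          rw [hx]
          exact hE
      _ ≤ L * L ^ T' * (L ^ C * (x : ℝ) ^ (2 * h)) := by
          apply mul_le_mul_of_nonneg_right _ (by positivity)
          exact mul_le_mul_of_nonneg_right hL2 (by positivity)
      _ = L ^ (C + T' + 1) * (x : ℝ) ^ (2 * h) := by ring
      _ ≤ Real.log N' ^ (C + T' + 1) * (x : ℝ) ^ (2 * h) := by
          apply mul_le_mul_of_nonneg_right _ e3
          exact pow_le_pow_left₀ hL0.le hlogN _) S (by rw [hS]; exact filter_subset _ _) (by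
    intro m hm
    rw [hS, mem_filter] at hm
    exact hm.2)
  -- the members without the formula
  have hsub : univ.filter (fun i : ι => ∃ n : ℕ, 0 < n ∧ (n : ℤ) = v i ∧ ¬ PRep ε E T κ₁ Y n) ⊆ S.image f := by
    intro i hi
    rw [mem_filter] at hi
    obtain ⟨_, n, hn0, hn1, hn2⟩ := hi
    unfold PRep at hn2
    push Not at hn2
    obtain ⟨hn3, hn4, hn5⟩ := hn2
    rw [← hL] at hn4
    obtain ⟨m, hm1, hm2⟩ := hsurj i
    rw [mem_image]
    refine ⟨m, ?_, hm2⟩
    rw [hS, mem_filter]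
    refine ⟨hm1, ?_, ?_, ?_⟩
    · rw [hm2, ← hn1]
      exact_mod_cast hn0
    · rw [hm2, ← hn1]
      exact_mod_cast even_iff_two_dvd.2 hn3
    · rw [hm2, ← hn1, Int.toNat_natCast]
      intro hHC
      apply hn5
      have hnr0 : (0 : ℝ) < n := by exact_mod_cast hn0
      have hnY : (n : ℝ) ≤ B * Y := by
        have e1 := (le_abs_self (v i)).trans (hv i)
        rw [← hn1] at e1
        exact_mod_cast e1
      have hnsq : Real.sqrt Y ≤ n := by
        refine le_trans ?_ hn4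
        rw [le_div_iff₀ (by positivity)]
        calc Real.sqrt Y * L ^ κ₁ ≤ Real.sqrt Y * Real.sqrt Y := mul_le_mul_of_nonneg_left hsq (Real.sqrt_nonneg _)
          _ = Y := Real.mul_self_sqrt hY0.le
      have hYn2 : (Y : ℝ) ≤ (n : ℝ) ^ 2 := by
        rw [← Real.sq_sqrt hY0.le]
        exact pow_le_pow_left₀ (Real.sqrt_nonneg _) hnsq 2
      have hLn : L ≤ 2 * Real.log n := by
        have e1 := Real.log_le_log hY0 hYn2
        rw [Real.log_pow, ← hL] at e1
        exact_mod_cast e1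
      have hLn2 : Real.log n ≤ 2 * L := by
        have e1 := Real.log_le_log hnr0 hnY
        have e2 : (B : ℝ) ≤ Y := by exact_mod_cast (by omega : B ≤ Y)
        have e3 : (B : ℝ) * Y ≤ Y ^ 2 := by nlinarith
        have e4 := Real.log_le_log (by linarith) e3
        rw [Real.log_pow, ← hL] at e4
        push_cast at e4
        linarith
      have hlogn0 : 0 ≤ Real.log (n : ℝ) := by linarith
      refine h1 N' n ?_ ?_ ?_ hHC
      · have e1 : n₁ ^ 2 ≤ n ^ 2 := by
          have e2 : (n₁ : ℝ) ^ 2 ≤ (n : ℝ) ^ 2 := by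
            refine le_trans ?_ hYn2
            exact_mod_cast (by omega : n₁ ^ 2 ≤ Y)
          exact_mod_cast e2
        exact (Nat.pow_le_pow_iff_left (by norm_num)).1 e1
      · refine le_trans ?_ hN1
        calc (n : ℝ) * Real.log n ^ (E + T) ≤ (B * Y) * (2 * L) ^ (E + T) := by
              apply mul_le_mul hnY (pow_le_pow_left₀ hlogn0 hLn2 _) (by positivity) (by positivity)
          _ = Y * L ^ (E + T) * (B * 2 ^ (E + T)) := by rw [mul_pow]; ring
          _ ≤ Y * L ^ (E + T) * L := mul_le_mul_of_nonneg_left (by linarith) (by positivity)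
          _ = Y * L ^ T' := by rw [hT']; ring
      · have e1 : (Y : ℝ) ≤ n * L ^ κ₁ := by
          rwa [div_le_iff₀ (by positivity)] at hn4
        have e2 : 2 ^ κ ≤ Real.log (n : ℝ) := by
          have : (2 : ℝ) ^ (κ + 1) = 2 * 2 ^ κ := by ring
          linarith
        calc (N' : ℝ) ≤ 2 * (Y * L ^ T') := hN2
          _ ≤ 2 * (n * L ^ κ₁ * L ^ T') := by
              apply mul_le_mul_of_nonneg_left _ (by norm_num)
              exact mul_le_mul_of_nonneg_right e1 (by positivity)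
          _ = 2 * (n * L ^ (κ₁ + T')) := by rw [pow_add]; ring
          _ ≤ 2 * (n * (2 * Real.log n) ^ (κ₁ + T')) := by
              apply mul_le_mul_of_nonneg_left _ (by norm_num)
              apply mul_le_mul_of_nonneg_left _ hnr0.le
              exact pow_le_pow_left₀ hL0.le hLn _
          _ = 2 ^ κ * (n * Real.log n ^ (κ₁ + T')) := by rw [hκ, mul_pow]; ring
          _ ≤ Real.log n * (n * Real.log n ^ (κ₁ + T')) := mul_le_mul_of_nonneg_right e2 (by positivity)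
          _ = n * Real.log n ^ κ := by rw [hκ]; ring
  calc ((univ.filter (fun i : ι => ∃ n : ℕ, 0 < n ∧ (n : ℤ) = v i ∧ ¬ PRep ε E T κ₁ Y n)).card : ℝ) ≤ S.card := by
        exact_mod_cast (card_le_card hsub).trans card_image_le
    _ ≤ x / Real.log N' ^ U := key
    _ ≤ x / L ^ U := by
        apply div_le_div_of_nonneg_left (Nat.cast_nonneg _) (by positivity)
        exact pow_le_pow_left₀ hL0.le hlogN _
    _ = _ := by rw [hx, hL]

end Pool.Agent.T9h51.RC
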