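import Pool.Agent.T9h51.PE.Mult2

/-!
# The energy of the families `a_i + m v_i` with arbitrary `a_i`
-/

set_option autoImplicit false

namespace Pool.Agent.T9h51.RC

open Finset
open Pool.Agent.H807R2.Dav
open Pool.Agent.TH212.EH (En)
open Pool.Agent.T9h51.PE (F prod F_nonneg F_le moment_le En_le_moment)

/-- the family of the numbers `a_i + m v_i`, `1 ≤ m ≤ M` -/
def cls {ι : Type} (v a : ι → ℤ) (M : ℕ) : ι × Fin M → ℤ := fun p => a p.1 + ((p.2 : ℕ) + 1 : ℤ) * v p.1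

/-- the sum of the first powers of a root of unity -/
noncomputable def gs (t : ℝ) (m : ℕ) : ℂ := ∑ l ∈ range m, ee (((l + 1 : ℕ) : ℝ) * t)

lemma gs_conj (t : ℝ) (m : ℕ) : ee (((m + 1 : ℕ) : ℝ) * t) * (starRingEnd ℂ) (gs t m) = gs t m := by
  unfold gs
  rw [map_sum, mul_sum, ← sum_range_reflect]
  apply sum_congr rfl
  intro l hl
  rw [mem_range] at hl
  have h1 : ∀ x : ℝ, (starRingEnd ℂ) (ee x) = ee (-x) := by
    intro x
    rw [ee_eq, ee_eq, ← Complex.exp_conj]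
    congr 1
    simp only [map_mul, Complex.conj_I, Complex.conj_ofReal, map_ofNat]
    push_cast
    ring
  rw [h1, ← ee_add]
  congr 1
  have h2 : ((m - 1 - l + 1 : ℕ) : ℝ) = (m : ℝ) - l := by
    have : m - 1 - l + 1 = m - l := by omega
    rw [this, Nat.cast_sub hl.le]
  rw [h2]
  push_cast
  ring

lemma gs_sq (t : ℝ) (m : ℕ) : ‖gs t m‖ ^ 2 = ∑ l ∈ range m, (1 + 2 * (gs t l).re) := by
  induction m with
  | zero => simp [gs]
  | succ m ih =>
    rw [sum_range_succ, ← ih]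
    have h1 : gs t (m + 1) = gs t m + ee (((m + 1 : ℕ) : ℝ) * t) := by
      unfold gs
      rw [sum_range_succ]
    have h2 : ‖gs t (m + 1)‖ ^ 2 = ‖gs t m‖ ^ 2 + ‖ee (((m + 1 : ℕ) : ℝ) * t)‖ ^ 2 +
        2 * (ee (((m + 1 : ℕ) : ℝ) * t) * (starRingEnd ℂ) (gs t m)).re := by
      rw [h1, ← Complex.normSq_eq_norm_sq, ← Complex.normSq_eq_norm_sq, ← Complex.normSq_eq_norm_sq, Complex.normSq_add]
      congr 2
      rw [← Complex.conj_re]
      congr 1
      rw [map_mul, Complex.conj_conj]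
      ring
    rw [h2, gs_conj, norm_ee]
    ring

/-- **The bound for the exponential sum.** -/
lemma F_cls {ι : Type} [Fintype ι] (v a : ι → ℤ) (M : ℕ) (α : ℝ) :
    F (cls v a M) α ^ 2 ≤ Fintype.card ι * ∑ m ∈ range M, ((Fintype.card ι : ℝ) + 2 * F (prod v m) α) := by
  have h1 : F (cls v a M) α ≤ ∑ i, ‖gs ((v i : ℝ) * α) M‖ := by
    unfold F
    rw [Fintype.sum_prod_type]
    refine (norm_sum_le _ _).trans ?_
    apply sum_le_sum
    intro i _
    have h2 : ∑ m : Fin M, ee ((cls v a M (i, m) : ℝ) * α) = ee ((a i : ℝ) * α) * gs ((v i : ℝ) * α) M := by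
      unfold gs
      rw [mul_sum, ← Fin.sum_univ_eq_sum_range (fun l => ee ((a i : ℝ) * α) * ee (((l + 1 : ℕ) : ℝ) * ((v i : ℝ) * α))) M]
      apply sum_congr rfl
      intro m _
      rw [← ee_add]
      congr 1
      unfold cls
      push_cast
      ring
    rw [h2, norm_mul, norm_ee, one_mul]
  have h3 : (∑ i, ‖gs ((v i : ℝ) * α) M‖) ^ 2 ≤ Fintype.card ι * ∑ i, ‖gs ((v i : ℝ) * α) M‖ ^ 2 := by
    have := sq_sum_le_card_mul_sum_sq (s := (univ : Finset ι)) (f := fun i => ‖gs ((v i : ℝ) * α) M‖)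
    rwa [card_univ] at this
  refine (pow_le_pow_left₀ (F_nonneg _ _) h1 2).trans (h3.trans ?_)
  apply mul_le_mul_of_nonneg_left _ (Nat.cast_nonneg _)
  simp only [gs_sq]
  rw [sum_comm]
  apply sum_le_sum
  intro m _
  rw [sum_add_distrib, sum_const, card_univ, nsmul_eq_mul, mul_one, ← mul_sum]
  apply add_le_add le_rfl
  apply mul_le_mul_of_nonneg_left _ (by norm_num)
  rw [← Complex.re_sum]
  refine (Complex.re_le_norm _).trans (le_of_eq ?_)
  unfold F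
  congr 1
  rw [Fintype.sum_prod_type]
  apply sum_congr rfl
  intro i _
  unfold gs
  rw [← Fin.sum_univ_eq_sum_range (fun l => ee (((l + 1 : ℕ) : ℝ) * ((v i : ℝ) * α))) m]
  apply sum_congr rfl
  intro l _
  congr 1
  unfold prod
  push_cast
  ring

/-- the energy of the next order -/
lemma En_succ {ι : Type} [Fintype ι] [Nonempty ι] (h : ℕ) (v : ι → ℤ) : (En (h + 1) v : ℝ) ≤ (Fintype.card ι : ℝ) ^ 2 * En h v := by
  obtain ⟨R, hR⟩ : ∃ R : ℕ, ∀ i, |v i| ≤ R := by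
    refine ⟨∑ i, (v i).natAbs, fun i => ?_⟩
    rw [Int.abs_eq_natAbs]
    exact_mod_cast single_le_sum (f := fun i => (v i).natAbs) (fun _ _ => Nat.zero_le _) (mem_univ i)
  obtain ⟨Z, hZ⟩ : ∃ Z, Z = 2 * h * R + 1 := ⟨_, rfl⟩
  have hZ1 : 1 ≤ Z := by omega
  have hZ0 : (0 : ℝ) < Z := by exact_mod_cast hZ1
  have h1 := En_le_moment (h + 1) v Z hZ1
  have h2 := moment_le h v R Z hZ1 hR (by omega)
  have h3 : ∑ t ∈ range Z, F v ((t : ℝ) / Z) ^ (2 * (h + 1)) ≤ (Fintype.card ι : ℝ) ^ 2 * ∑ t ∈ range Z, F v ((t : ℝ) / Z) ^ (2 * h) := by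
    rw [mul_sum]
    apply sum_le_sum
    intro t _
    rw [show 2 * (h + 1) = 2 + 2 * h by ring, pow_add]
    exact mul_le_mul_of_nonneg_right (pow_le_pow_left₀ (F_nonneg _ _) (F_le _ _) 2) (pow_nonneg (F_nonneg _ _) _)
  have h4 : (Z : ℝ) * En (h + 1) v ≤ Z * ((Fintype.card ι : ℝ) ^ 2 * En h v) := by
    calc (Z : ℝ) * En (h + 1) v ≤ _ := h1
      _ ≤ _ := h3
      _ ≤ (Fintype.card ι : ℝ) ^ 2 * (Z * En h v) := mul_le_mul_of_nonneg_left h2 (by positivity)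
      _ = _ := by ring
  exact le_of_mul_le_mul_left h4 hZ0

lemma En_mono {ι : Type} [Fintype ι] [Nonempty ι] (h k : ℕ) (v : ι → ℤ) (X : ℝ) (hX : (En h v : ℝ) ≤ X * (Fintype.card ι : ℝ) ^ (2 * h)) :
    (En (h + k) v : ℝ) ≤ X * (Fintype.card ι : ℝ) ^ (2 * (h + k)) := by
  induction k with
  | zero => exact hX
  | succ k ih =>
    have h1 := En_succ (h + k) v
    have h2 : (Fintype.card ι : ℝ) ^ 2 * En (h + k) v ≤ (Fintype.card ι : ℝ) ^ 2 * (X * (Fintype.card ι : ℝ) ^ (2 * (h + k))) :=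
      mul_le_mul_of_nonneg_left ih (by positivity)
    refine h1.trans (h2.trans (le_of_eq ?_))
    rw [show 2 * (h + (k + 1)) = 2 + 2 * (h + k) by ring, pow_add]
    ring

/-- **The energy of the family of the numbers `a_i + m v_i` is nearly minimal**, for all `a_i`. -/
theorem cls_energy (h B C K₀ T : ℕ) (hh : 1 ≤ h) (hB : 1 ≤ B) (hK₀ : 1 ≤ K₀) : ∃ h' C' N₀ : ℕ, 1 ≤ h' ∧ ∀ N : ℕ, N₀ ≤ N →
    ∀ M : ℕ, 1 ≤ M → M ≤ N ^ K₀ → N ≤ M ^ T → ∀ (ι : Type) [Fintype ι] [Nonempty ι] (v a : ι → ℤ), (∀ i, |v i| ≤ (B * N : ℕ)) →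
    (En h v : ℝ) * N ≤ Real.log N ^ C * (Fintype.card ι : ℝ) ^ (2 * h) →
    (En h' (cls v a M) : ℝ) * ((N * M : ℕ) : ℝ) ≤ Real.log N ^ C' * (Fintype.card (ι × Fin M) : ℝ) ^ (2 * h') := by
  classical
  obtain ⟨k₀, C₁, N₁, hk₀, hpe⟩ := Pool.Agent.T9h51.PE.prod_energy h B C K₀ hh hB hK₀
  obtain ⟨k, hk⟩ : ∃ k, k = k₀ + T := ⟨_, rfl⟩
  have hk1 : 1 ≤ k := by omega
  obtain ⟨N₂, hlog⟩ := Pool.Agent.H373R2.T7.ev_L' (2 ^ (4 * k) : ℝ)
  refine ⟨2 * k, C₁ + 1, N₁ + N₂ + 3, by omega, fun N hN M hM hMN hNM ι _ _ v a hv hE => ?_⟩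
  have hLbig := hlog N (by omega)
  obtain ⟨L, hL⟩ : ∃ L, L = Real.log (N : ℝ) := ⟨_, rfl⟩
  have hpe' := fun M' (h1 : 1 ≤ M') (h2 : M' ≤ N ^ K₀) => hpe N (by omega) M' h1 h2 ι v hv hE
  rw [← hL] at hLbig hE ⊢
  simp only [← hL] at hpe'
  obtain ⟨c, hc⟩ : ∃ c : ℝ, c = (Fintype.card ι : ℝ) := ⟨_, rfl⟩
  have hc1 : 1 ≤ c := by
    rw [hc]
    exact_mod_cast Fintype.card_pos
  have hc0 : 0 < c := by linarith
  have hp4 : (1 : ℝ) ≤ 2 ^ (4 * k) := one_le_pow₀ (by norm_num)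
  have hL1 : 1 ≤ L := by linarith
  have hN1 : 1 ≤ N := by omega
  have hNr : (1 : ℝ) ≤ N := by exact_mod_cast hN1
  have hMr : (1 : ℝ) ≤ M := by exact_mod_cast hM
  have hcardM : ∀ m : ℕ, (Fintype.card (ι × Fin m) : ℝ) = c * m := by
    intro m
    rw [hc, Fintype.card_prod, Fintype.card_fin]
    push_cast
    rfl
  -- the energies of the products
  have hprod : ∀ m : ℕ, 1 ≤ m → m ≤ M → (En k (prod v m) : ℝ) ≤ L ^ C₁ / (N * m : ℝ) * (c * m) ^ (2 * k) := by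
    intro m hm1 hm2
    have : Nonempty (Fin m) := ⟨⟨0, hm1⟩⟩
    have h1 := hpe' m hm1 (hm2.trans hMN)
    have hm0 : (0 : ℝ) < m := by exact_mod_cast hm1
    have h2 : (En k₀ (prod v m) : ℝ) ≤ L ^ C₁ / (N * m : ℝ) * (Fintype.card (ι × Fin m) : ℝ) ^ (2 * k₀) := by
      rw [div_mul_eq_mul_div, le_div_iff₀ (by positivity)]
      push_cast at h1 ⊢
      exact h1
    have h3 := En_mono k₀ T (prod v m) _ h2
    rw [← hk, hcardM] at h3
    exact h3
  -- the moments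
  obtain ⟨R, hR⟩ : ∃ R : ℕ, R = M * (B * N) := ⟨_, rfl⟩
  obtain ⟨Z, hZ⟩ : ∃ Z, Z = 2 * k * R + 1 := ⟨_, rfl⟩
  have hZ1 : 1 ≤ Z := by omega
  have hZ0 : (0 : ℝ) < Z := by exact_mod_cast hZ1
  have hmom : ∀ m : ℕ, m < M → ∑ t ∈ range Z, F (prod v m) ((t : ℝ) / Z) ^ (2 * k) ≤ Z * (L ^ C₁ / N * c ^ (2 * k) * (M : ℝ) ^ (2 * k - 1)) := by
    intro m hm
    rcases Nat.eq_zero_or_pos m with rfl | hm1
    · have h1 : ∀ α : ℝ, F (prod v 0) α = 0 := by
        intro α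
        unfold F
        rw [Fintype.sum_prod_type]
        simp
      simp only [h1]
      rw [zero_pow (by omega), sum_const_zero]
      positivity
    · have : Nonempty (Fin m) := ⟨⟨0, hm1⟩⟩
      have h1 := moment_le k (prod v m) R Z hZ1 (by
        rintro ⟨i, l⟩
        unfold prod
        simp only
        rw [abs_mul, hR]
        push_cast
        have e1 : |((l : ℕ) : ℤ) + 1| ≤ M := by
          have := l.2
          rw [abs_of_nonneg (by positivity)]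
          exact_mod_cast (by omega : (l : ℕ) + 1 ≤ M)
        have e2 := hv i
        push_cast at e2
        exact mul_le_mul e1 e2 (abs_nonneg _) (by positivity)) (by omega)
      refine h1.trans (mul_le_mul_of_nonneg_left ((hprod m hm1 hm.le).trans ?_) hZ0.le)
      have hm0 : (0 : ℝ) < m := by exact_mod_cast hm1
      have e1 : L ^ C₁ / (N * m : ℝ) * (c * m) ^ (2 * k) = L ^ C₁ / N * c ^ (2 * k) * (m : ℝ) ^ (2 * k - 1) := by
        obtain ⟨e, he⟩ : ∃ e, 2 * k = e + 1 := ⟨2 * k - 1, by omega⟩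
        rw [he, Nat.add_sub_cancel, mul_pow, pow_succ (m : ℝ) e]
        field_simp
      rw [e1]
      apply mul_le_mul_of_nonneg_left _ (by positivity)
      exact pow_le_pow_left₀ hm0.le (by exact_mod_cast hm.le) _
  have hpt : ∀ α : ℝ, F (cls v a M) α ^ (2 * (2 * k)) ≤ c ^ (2 * k) * ((M : ℝ) ^ (2 * k - 1) * ∑ m ∈ range M,
      2 ^ (2 * k - 1) * (c ^ (2 * k) + (2 * F (prod v m) α) ^ (2 * k))) := by
    intro α
    have h1 := F_cls v a M α
    rw [← hc] at h1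
    have h2 : F (cls v a M) α ^ (2 * (2 * k)) = (F (cls v a M) α ^ 2) ^ (2 * k) := by rw [← pow_mul]
    rw [h2]
    refine (pow_le_pow_left₀ (by positivity) h1 _).trans ?_
    rw [mul_pow]
    apply mul_le_mul_of_nonneg_left _ (by positivity)
    have hnn : ∀ m ∈ range M, 0 ≤ c + 2 * F (prod v m) α := fun m _ => by
      have := F_nonneg (prod v m) α
      positivity
    obtain ⟨e, he⟩ : ∃ e, 2 * k = e + 1 := ⟨2 * k - 1, by omega⟩
    have h4 := pow_sum_div_card_le_sum_pow (s := range M) (f := fun m => c + 2 * F (prod v m) α) hnn e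
    rw [card_range, div_le_iff₀ (by positivity)] at h4
    rw [he, Nat.add_sub_cancel]
    refine h4.trans ?_
    rw [mul_comm]
    apply mul_le_mul_of_nonneg_left _ (by positivity)
    apply sum_le_sum
    intro m _
    have h5 := add_pow_le hc0.le (by have := F_nonneg (prod v m) α; positivity : 0 ≤ 2 * F (prod v m) α) (e + 1)
    rwa [Nat.add_sub_cancel] at h5
  have : Nonempty (Fin M) := ⟨⟨0, hM⟩⟩
  have h1 := En_le_moment (2 * k) (cls v a M) Z hZ1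
  have h2 : ∑ t ∈ range Z, F (cls v a M) ((t : ℝ) / Z) ^ (2 * (2 * k)) ≤ Z * (c ^ (2 * k) * ((M : ℝ) ^ (2 * k - 1) * (M *
      (2 ^ (2 * k - 1) * (c ^ (2 * k) + 2 ^ (2 * k) * (L ^ C₁ / N * c ^ (2 * k) * (M : ℝ) ^ (2 * k - 1))))))) := by
    calc ∑ t ∈ range Z, F (cls v a M) ((t : ℝ) / Z) ^ (2 * (2 * k)) ≤ ∑ t ∈ range Z, c ^ (2 * k) * ((M : ℝ) ^ (2 * k - 1) * ∑ m ∈ range M,
        2 ^ (2 * k - 1) * (c ^ (2 * k) + (2 * F (prod v m) ((t : ℝ) / Z)) ^ (2 * k))) := sum_le_sum fun t _ => hpt _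
      _ = c ^ (2 * k) * ((M : ℝ) ^ (2 * k - 1) * ∑ m ∈ range M, (2 ^ (2 * k - 1) * (Z * c ^ (2 * k) + 2 ^ (2 * k) *
          ∑ t ∈ range Z, F (prod v m) ((t : ℝ) / Z) ^ (2 * k)))) := by
          rw [← mul_sum, ← mul_sum, sum_comm]
          congr 2
          apply sum_congr rfl
          intro m _
          rw [← mul_sum, sum_add_distrib, sum_const, card_range, nsmul_eq_mul]
          simp only [mul_pow]
          rw [← mul_sum]
      _ ≤ c ^ (2 * k) * ((M : ℝ) ^ (2 * k - 1) * ∑ _m ∈ range M, (2 ^ (2 * k - 1) * (Z * c ^ (2 * k) + 2 ^ (2 * k) *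
          (Z * (L ^ C₁ / N * c ^ (2 * k) * (M : ℝ) ^ (2 * k - 1)))))) := by
          apply mul_le_mul_of_nonneg_left _ (by positivity)
          apply mul_le_mul_of_nonneg_left _ (by positivity)
          apply sum_le_sum
          intro m hm
          rw [mem_range] at hm
          apply mul_le_mul_of_nonneg_left _ (by positivity)
          apply add_le_add le_rfl
          exact mul_le_mul_of_nonneg_left (hmom m hm) (by positivity)
      _ = _ := by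
          rw [sum_const, card_range, nsmul_eq_mul]
          ring
  have h3 : (En (2 * k) (cls v a M) : ℝ) ≤ c ^ (2 * k) * ((M : ℝ) ^ (2 * k - 1) * (M *
      (2 ^ (2 * k - 1) * (c ^ (2 * k) + 2 ^ (2 * k) * (L ^ C₁ / N * c ^ (2 * k) * (M : ℝ) ^ (2 * k - 1)))))) :=
    le_of_mul_le_mul_left (h1.trans h2) hZ0
  rw [hcardM]
  obtain ⟨e, he⟩ : ∃ e, 2 * k = e + 1 := ⟨2 * k - 1, by omega⟩
  have hNMe : (N : ℝ) ≤ (M : ℝ) ^ e := by
    have e1 : (N : ℝ) ≤ (M : ℝ) ^ T := by exact_mod_cast hNM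
    exact e1.trans (pow_le_pow_right₀ hMr (by omega))
  rw [he, Nat.add_sub_cancel] at h3
  rw [show 2 * (2 * k) = (e + 1) + (e + 1) by omega, he]
  have hC1 : 1 ≤ L ^ C₁ := one_le_pow₀ hL1
  calc (En (e + 1) (cls v a M) : ℝ) * ((N * M : ℕ) : ℝ) ≤ (c ^ (e + 1) * ((M : ℝ) ^ e * (M *
      (2 ^ e * (c ^ (e + 1) + 2 ^ (e + 1) * (L ^ C₁ / N * c ^ (e + 1) * (M : ℝ) ^ e)))))) * ((N * M : ℕ) : ℝ) :=
        mul_le_mul_of_nonneg_right h3 (Nat.cast_nonneg _)
    _ = c ^ (e + 1) * c ^ (e + 1) * (M : ℝ) ^ (e + 1) * M * 2 ^ e * (N + 2 ^ (e + 1) * L ^ C₁ * (M : ℝ) ^ e) := by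
        push_cast
        field_simp
        ring
    _ ≤ c ^ (e + 1) * c ^ (e + 1) * (M : ℝ) ^ (e + 1) * M * 2 ^ e * ((2 ^ (e + 1) + 1) * L ^ C₁ * (M : ℝ) ^ e) := by
        apply mul_le_mul_of_nonneg_left _ (by positivity)
        have e1 : (M : ℝ) ^ e ≤ L ^ C₁ * (M : ℝ) ^ e := le_mul_of_one_le_left (by positivity) hC1
        nlinarith
    _ = (2 ^ e * (2 ^ (e + 1) + 1)) * L ^ C₁ * (c * M) ^ ((e + 1) + (e + 1)) := by ring
    _ ≤ L * L ^ C₁ * (c * M) ^ ((e + 1) + (e + 1)) := by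
        apply mul_le_mul_of_nonneg_right _ (by positivity)
        apply mul_le_mul_of_nonneg_right _ (by positivity)
        refine le_trans ?_ hLbig
        rw [show 4 * k = e + (e + 1 + 1) by omega, pow_add (2 : ℝ) e (e + 1 + 1)]
        apply mul_le_mul_of_nonneg_left _ (by positivity)
        have e1 : (1 : ℝ) ≤ 2 ^ (e + 1) := one_le_pow₀ (by norm_num)
        rw [pow_succ (2 : ℝ) (e + 1)]
        linarith
    _ = _ := by rw [pow_succ]; ring

end Pool.Agent.T9h51.RC
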