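import Pool.Agent.T9h51.RC.Low
import Pool.Agent.T9h57.GD.Conv

/-!
# The exceptional elements of the residue classes: large heights
-/

set_option autoImplicit false

namespace Pool.Agent.T9h51.RC

open Finset
open Pool.Agent.R460.GQ (exceptional Holds HoldsP holdsP_of)
open Pool.Agent.T9h57.PK (rad)
open Pool.Agent.T9h57.GD (gd_real)

lemma ev_t (K : ℕ) (c : ℝ) : ∃ t₀ : ℕ, 1 ≤ t₀ ∧ ∀ t : ℕ, t₀ ≤ t → c ≤ (t : ℝ) * Real.log 2 ∧ ((t : ℝ) * Real.log 2) ^ K ≤ ((2 : ℝ) ^ t) ^ (1 / 12 : ℝ) := by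
  have h1 : Filter.Tendsto (fun t : ℕ => (t : ℝ) * Real.log 2) Filter.atTop Filter.atTop :=
    (tendsto_natCast_atTop_atTop (R := ℝ)).atTop_mul_const (Real.log_pos (by norm_num))
  have h2 : Filter.Tendsto (fun y : ℝ => y ^ K * Real.exp (-y * (1 / 12))) Filter.atTop (nhds 0) := by
    have h3 := Real.tendsto_pow_mul_exp_neg_atTop_nhds_zero K
    have h4 : Filter.Tendsto (fun y : ℝ => y * (1 / 12)) Filter.atTop Filter.atTop :=
      Filter.tendsto_id.atTop_mul_const (by norm_num)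
    have h5 := (h3.comp h4).const_mul ((12 : ℝ) ^ K)
    rw [mul_zero] at h5
    refine h5.congr fun y => ?_
    simp only [Function.comp]
    rw [mul_pow, ← mul_assoc, ← mul_assoc, mul_comm ((12 : ℝ) ^ K) (y ^ K), mul_assoc (y ^ K), ← mul_pow]
    norm_num
  have h3 := (h1.eventually (h2.eventually (gt_mem_nhds (zero_lt_one)))).and (h1.eventually (Filter.eventually_ge_atTop c))
  obtain ⟨t₀, ht₀⟩ := Filter.eventually_atTop.1 h3
  refine ⟨t₀ + 1, by omega, fun t ht => ?_⟩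
  obtain ⟨k1, k2⟩ := ht₀ t (by omega)
  refine ⟨k2, ?_⟩
  have e1 : ((2 : ℝ) ^ t) ^ (1 / 12 : ℝ) = Real.exp ((t : ℝ) * Real.log 2 * (1 / 12)) := by
    rw [Real.rpow_def_of_pos (by positivity), Real.log_pow]
  rw [e1]
  have e2 : Real.exp (-((t : ℝ) * Real.log 2) * (1 / 12)) = (Real.exp ((t : ℝ) * Real.log 2 * (1 / 12)))⁻¹ := by
    rw [← Real.exp_neg]
    congr 1
    ring
  rw [e2, ← div_eq_mul_inv, div_lt_one (Real.exp_pos _)] at k1
  exact k1.le

open Classical in
/-- **Large heights.** -/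
theorem rep_high (ε : ℝ) (hε : 0 < ε) (hε1 : ε ≤ 1 / 2) (E T A : ℕ) (hE : A + 15 ≤ E) : ∃ c : ℕ, ∀ T' : ℕ, ∃ t₀ : ℕ, ∃ D : ℕ → Finset ℕ,
    (∀ t : ℕ, t₀ ≤ t → ((D t).card : ℝ) ≤ ((t : ℝ) * Real.log 2) ^ c ∧ ∀ d ∈ D t, ((t : ℝ) * Real.log 2) ^ T' < d) ∧
    ∀ t : ℕ, t₀ ≤ t → ∀ q : ℕ, 1 ≤ q → (q : ℝ) ≤ ((2 : ℝ) ^ t) ^ (2 / 3 - 1 / 12 : ℝ) → (∀ d ∈ D t, ¬ d ∣ q) → ∀ b : ℤ,
      ((exc (Rep ε E T) (2 ^ t) q b).ncard : ℝ) ≤ 2 ^ t / (q * ((t : ℝ) * Real.log 2) ^ (A + 1)) := by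
  obtain ⟨C, hC⟩ : ∃ C, C = E + T := ⟨_, rfl⟩
  obtain ⟨A₁, hA₁⟩ : ∃ A₁, A₁ = C + 8 + A + 2 := ⟨_, rfl⟩
  obtain ⟨c, hc⟩ := gd_real (1 / 12) (by norm_num) A₁ 0 (C + 1)
  refine ⟨c + 1, fun T' => ?_⟩
  obtain ⟨x₀, hx⟩ := hc T'
  choose D hD1 hD2 hD3 using hx
  obtain ⟨n₀, hrep⟩ := rep_of_HoldsP ε hε hε1 E T (by omega)
  obtain ⟨t₁, ht₁1, ht₁⟩ := ev_t (A + 3) (2 ^ (C + 7) + 2 ^ c + 10 * 2 ^ E / ε + 4)
  obtain ⟨t₂, ht₂⟩ := pow_unbounded_of_one_lt x₀ (by norm_num : (1 : ℝ) < 2)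
  obtain ⟨t₃, ht₃⟩ := pow_unbounded_of_one_lt ((n₀ : ℝ) ^ 2) (by norm_num : (1 : ℝ) < 2)
  obtain ⟨t₄, ht₄1, ht₄⟩ := ev_t (C + 8) 1
  obtain ⟨sc, hsc⟩ : ∃ sc : ℕ → ℝ, ∀ t, sc t = (2 : ℝ) ^ t * ((t : ℝ) * Real.log 2) ^ (C + 8) := ⟨_, fun _ => rfl⟩
  obtain ⟨t₀, ht₀⟩ : ∃ t₀, t₀ = t₁ + t₂ + t₃ + t₄ := ⟨_, rfl⟩
  -- the size of the scale
  have hbig : ∀ t : ℕ, t₀ ≤ t → 2 ^ (C + 7) + 2 ^ c + 10 * 2 ^ E / ε + 4 ≤ (t : ℝ) * Real.log 2 := fun t ht => (ht₁ t (by omega)).1
  have hbig4 : ∀ t : ℕ, t₀ ≤ t → 4 ≤ (t : ℝ) * Real.log 2 := fun t ht => by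
    have := hbig t ht
    have e1 : (0 : ℝ) < 2 ^ (C + 7) := by positivity
    have e2 : (0 : ℝ) < 2 ^ c := by positivity
    have e3 : 0 < 10 * 2 ^ E / ε := by positivity
    linarith
  have hsc1 : ∀ t : ℕ, t₀ ≤ t → (2 : ℝ) ^ t ≤ sc t := fun t ht => by
    rw [hsc]
    exact le_mul_of_one_le_right (by positivity) (one_le_pow₀ (by linarith [hbig4 t ht]))
  have hge : ∀ t : ℕ, t₀ ≤ t → x₀ ≤ sc t := fun t ht =>
    (ht₂.le.trans (pow_le_pow_right₀ (by norm_num) (by omega))).trans (hsc1 t ht)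
  have hlog1 : ∀ t : ℕ, t₀ ≤ t → (t : ℝ) * Real.log 2 ≤ Real.log (sc t) := fun t ht => by
    have e1 := Real.log_le_log (by positivity) (hsc1 t ht)
    rwa [Real.log_pow] at e1
  have hlog2 : ∀ t : ℕ, t₀ ≤ t → Real.log (sc t) ≤ 2 * ((t : ℝ) * Real.log 2) := fun t ht => by
    have e1 := (ht₄ t (by omega)).2
    have e2 : ((2 : ℝ) ^ t) ^ (1 / 12 : ℝ) ≤ (2 : ℝ) ^ t := by
      nth_rewrite 2 [← Real.rpow_one ((2 : ℝ) ^ t)]
      exact Real.rpow_le_rpow_of_exponent_le (one_le_pow₀ (by norm_num)) (by norm_num)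
    have e3 : sc t ≤ (2 : ℝ) ^ t * (2 : ℝ) ^ t := by
      rw [hsc]
      exact mul_le_mul_of_nonneg_left (e1.trans e2) (by positivity)
    have e4 : 0 < sc t := lt_of_lt_of_le (by positivity) (hsc1 t ht)
    have e5 := Real.log_le_log e4 e3
    rw [Real.log_mul (by positivity) (by positivity), Real.log_pow] at e5
    linarith
  refine ⟨t₀, fun t => if ht : x₀ ≤ sc t then D (sc t) ht else ∅, ?_, ?_⟩
  · intro t ht
    simp only
    rw [dif_pos (hge t ht)]
    have hl := hbig t ht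
    have hl4 := hbig4 t ht
    have g1 := hlog1 t ht
    have g2 := hlog2 t ht
    constructor
    · refine (hD1 _ (hge t ht)).trans ?_
      calc Real.log (sc t) ^ c ≤ (2 * ((t : ℝ) * Real.log 2)) ^ c := pow_le_pow_left₀ (by linarith) g2 _
        _ = ((t : ℝ) * Real.log 2) ^ c * 2 ^ c := by rw [mul_pow]; ring
        _ ≤ ((t : ℝ) * Real.log 2) ^ c * ((t : ℝ) * Real.log 2) := by
            apply mul_le_mul_of_nonneg_left _ (by positivity)
            have e1 : (0 : ℝ) < 2 ^ (C + 7) := by positivity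
            have e3 : 0 < 10 * 2 ^ E / ε := by positivity
            linarith
        _ = _ := (pow_succ _ _).symm
    · intro d hd
      have e1 := hD2 _ (hge t ht) d hd
      have e0 : ((t : ℝ) * Real.log 2) ^ T' ≤ Real.log (sc t) ^ T' := pow_le_pow_left₀ (by linarith) g1 _
      refine e0.trans_lt (e1.trans_le ?_)
      have e2 : 1 ≤ Real.log (sc t) := by linarith
      have e5 : d ≠ 0 := by
        rintro rfl
        have e6 : ((rad 0 : ℕ) : ℝ) = 1 := by
          unfold Pool.Agent.T9h57.PK.rad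
          simp
        rw [e6] at e1
        exact absurd (one_le_pow₀ e2) (not_le.2 e1)
      have e7 : rad d ≤ d := Nat.le_of_dvd (Nat.pos_of_ne_zero e5) (Nat.prod_primeFactors_dvd d)
      exact_mod_cast e7
  · intro t ht q hq1 hq2 hq3 b
    simp only at hq3
    rw [dif_pos (hge t ht)] at hq3
    have hl := hbig t ht
    have hl4 := hbig4 t ht
    have g1 := hlog1 t ht
    have g2 := hlog2 t ht
    have g3 := (ht₁ t (by omega)).2
    have g4 : (n₀ : ℝ) ^ 2 ≤ (2 : ℝ) ^ t := ht₃.le.trans (pow_le_pow_right₀ (by norm_num) (by omega))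
    have g5 := hsc1 t ht
    have hx0t := hge t ht
    obtain ⟨y, hy⟩ : ∃ y, y = sc t := ⟨_, rfl⟩
    obtain ⟨l, hld⟩ : ∃ l, l = (t : ℝ) * Real.log 2 := ⟨_, rfl⟩
    obtain ⟨X, hX⟩ : ∃ X, X = (2 : ℝ) ^ t := ⟨_, rfl⟩
    have hyX : y = X * l ^ (C + 8) := by rw [hy, hsc, hX, hld]
    have hlX : Real.log X = l := by rw [hX, hld, Real.log_pow]
    have key := (hD3 _ hx0t q hq1 (by
      refine hq2.trans (Real.rpow_le_rpow (by positivity) g5 (by norm_num))) hq3 b)
    rw [← hy] at key g1 g2 g5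
    rw [← hld] at hl hl4 g1 g2 g3 ⊢
    rw [← hX] at hq2 g3 g4 g5 ⊢
    have hq0 : (0 : ℝ) < q := by exact_mod_cast hq1
    have hX0 : 0 < X := by rw [hX]; positivity
    have hl0 : 0 < l := by linarith
    have hl1 : 1 ≤ l := by linarith
    have p1 : (0 : ℝ) < 2 ^ (C + 7) := by positivity
    have p2 : (0 : ℝ) < 2 ^ c := by positivity
    have p3 : 0 < 10 * 2 ^ E / ε := by positivity
    have hy0 : 0 < y := lt_of_lt_of_le hX0 g5
    have hly0 : 0 < Real.log y := by linarith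
    -- the small elements
    obtain ⟨Z, hZ⟩ : ∃ Z, Z = X / l ^ (A + 3) := ⟨_, rfl⟩
    have hZ0 : 0 ≤ Z := by rw [hZ]; positivity
    obtain ⟨a, ha1, ha2, ha3, -⟩ := class_rep q hq1 b
    obtain ⟨S₁, hS₁⟩ : ∃ S₁ : Set ℕ, S₁ = {n | n ∈ exc (Rep ε E T) X q b ∧ (n : ℝ) ≤ Z} := ⟨_, rfl⟩
    obtain ⟨hf1, hc1⟩ := class_count q hq1 a ha1 ha2 Z hZ0 S₁ (by
      intro n hn
      rw [hS₁] at hn
      exact ⟨hn.1.1, hn.2, hn.1.2.2.2.1.trans ha3.symm⟩)
    have haq : (-a : ℝ) < q := by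
      have : (-a : ℤ) < q := by omega
      exact_mod_cast this
    have hqZ : (q : ℝ) ≤ Z := by
      rw [hZ, le_div_iff₀ (by positivity)]
      calc (q : ℝ) * l ^ (A + 3) ≤ X ^ (2 / 3 - 1 / 12 : ℝ) * X ^ (1 / 12 : ℝ) :=
            mul_le_mul hq2 g3 (by positivity) (by positivity)
        _ = X ^ (2 / 3 : ℝ) := by
            rw [← Real.rpow_add hX0]
            norm_num
        _ ≤ X ^ (1 : ℝ) := Real.rpow_le_rpow_of_exponent_le (by rw [hX]; exact one_le_pow₀ (by norm_num)) (by norm_num)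
        _ = X := Real.rpow_one _
    have hc1' : (S₁.ncard : ℝ) ≤ 2 * (X / (q * l ^ (A + 3))) := by
      refine hc1.trans ?_
      calc (Z - a) / q ≤ (2 * Z) / q := div_le_div_of_nonneg_right (by linarith) hq0.le
        _ = 2 * (X / (q * l ^ (A + 3))) := by rw [hZ]; field_simp
    have hsqX : Z ^ 2 ≥ X := by
      have e1 : l ^ (A + 3) ≤ X ^ (1 / 2 : ℝ) := g3.trans (Real.rpow_le_rpow_of_exponent_le
        (by rw [hX]; exact one_le_pow₀ (by norm_num)) (by norm_num))
      have e2 : (l ^ (A + 3)) ^ 2 ≤ X := by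
        calc (l ^ (A + 3)) ^ 2 ≤ (X ^ (1 / 2 : ℝ)) ^ 2 := pow_le_pow_left₀ (by positivity) e1 2
          _ = X := by
            rw [← Real.rpow_natCast, ← Real.rpow_mul hX0.le]
            norm_num
      rw [hZ, div_pow, ge_iff_le, le_div_iff₀ (by positivity)]
      nlinarith
    have hsub : exc (Rep ε E T) X q b ⊆ S₁ ∪ exceptional 0 (C + 1) y q b := by
      intro n hn
      by_cases hnZ : (n : ℝ) ≤ Z
      · left
        rw [hS₁]
        exact ⟨hn, hnZ⟩
      · right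
        push Not at hnZ
        obtain ⟨k1, k2, k3, k4, k5⟩ := hn
        have hn0 : (0 : ℝ) < n := by exact_mod_cast k1
        have hnl2 : (n : ℝ) ≤ y / Real.log y ^ (C + 1 + 6) := by
          rw [le_div_iff₀ (by positivity)]
          calc (n : ℝ) * Real.log y ^ (C + 1 + 6) ≤ X * (2 * l) ^ (C + 7) := by
                apply mul_le_mul k2 _ (by positivity) hX0.le
                exact pow_le_pow_left₀ (by linarith) g2 _
            _ = X * l ^ (C + 7) * 2 ^ (C + 7) := by rw [mul_pow]; ring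
            _ ≤ X * l ^ (C + 7) * l := mul_le_mul_of_nonneg_left (by linarith) (by positivity)
            _ = y := by rw [hyX]; ring
        refine ⟨k1, hnl2, even_iff_two_dvd.2 k3, k4, fun hH => k5 ?_⟩
        have hP := holdsP_of (C := C) (by linarith : 3 ≤ Real.log y) hy0 k1 hnl2 hH
        have hlogn : Real.log n ≤ l := by rw [← hlX]; exact Real.log_le_log hn0 k2
        have hn2 : X ≤ (n : ℝ) ^ 2 := le_trans hsqX (pow_le_pow_left₀ hZ0 hnZ.le 2)
        have hlogn2 : l ≤ 2 * Real.log n := by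
          have e1 := Real.log_le_log hX0 hn2
          rw [Real.log_pow, hlX] at e1
          exact_mod_cast e1
        have hlogn0 : 0 < Real.log (n : ℝ) := by linarith
        refine hrep n C y ?_ ?_ ?_ hP
        · have e1 : (n₀ : ℝ) ^ 2 ≤ (n : ℝ) ^ 2 := g4.trans hn2
          have e2 : n₀ ^ 2 ≤ n ^ 2 := by exact_mod_cast e1
          exact (Nat.pow_le_pow_iff_left (by norm_num)).1 e2
        · rw [← hC]
          calc (n : ℝ) * Real.log n ^ C ≤ X * l ^ C :=
                mul_le_mul k2 (pow_le_pow_left₀ hlogn0.le hlogn _) (by positivity) hX0.le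
            _ ≤ X * l ^ (C + 8) := by
                apply mul_le_mul_of_nonneg_left _ hX0.le
                exact pow_le_pow_right₀ hl1 (by omega)
            _ = y := hyX.symm
        · obtain ⟨E', hE'⟩ : ∃ E', E = A + 15 + E' := ⟨E - (A + 15), by omega⟩
          have e1 : y / Real.log y ^ C ≤ X * l ^ 8 := by
            rw [div_le_iff₀ (by positivity)]
            calc y = X * l ^ 8 * l ^ C := by rw [hyX]; ring
              _ ≤ X * l ^ 8 * Real.log y ^ C := by
                  apply mul_le_mul_of_nonneg_left _ (by positivity)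
                  exact pow_le_pow_left₀ hl0.le g1 _
          refine e1.trans ?_
          have e2 : X ≤ n * l ^ (A + 3) := by
            rw [hZ, div_lt_iff₀ (by positivity)] at hnZ
            exact hnZ.le
          have e3 : l ^ (E - 3) ≤ 2 ^ (E - 3) * Real.log n ^ (E - 3) := by
            rw [← mul_pow]
            exact pow_le_pow_left₀ hl0.le hlogn2 _
          have e4 : 10 * 2 ^ E ≤ l * ε := by
            have : 10 * 2 ^ E / ε ≤ l := by linarith
            rwa [div_le_iff₀ hε] at this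
          have e5 : (2 : ℝ) ^ (E - 3) ≤ 2 ^ E := pow_le_pow_right₀ (by norm_num) (by omega)
          calc X * l ^ 8 ≤ (n * l ^ (A + 3)) * l ^ 8 := mul_le_mul_of_nonneg_right e2 (by positivity)
            _ = n * l ^ (A + 11) := by ring
            _ = n * (l ^ (A + 11) * (10 * 2 ^ E)) / (10 * 2 ^ E) := by field_simp
            _ ≤ n * (l ^ (A + 11) * (l * ε)) / (10 * 2 ^ E) := by
                apply div_le_div_of_nonneg_right _ (by positivity)
                apply mul_le_mul_of_nonneg_left _ hn0.le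
                exact mul_le_mul_of_nonneg_left e4 (by positivity)
            _ = ε / 10 * (n * (l ^ (A + 12) / 2 ^ E)) := by field_simp; ring
            _ ≤ ε / 10 * (n * Real.log n ^ (E - 3)) := by
                apply mul_le_mul_of_nonneg_left _ (by positivity)
                apply mul_le_mul_of_nonneg_left _ hn0.le
                rw [div_le_iff₀ (by positivity)]
                calc l ^ (A + 12) ≤ l ^ (E - 3) := pow_le_pow_right₀ hl1 (by omega)
                  _ ≤ 2 ^ (E - 3) * Real.log n ^ (E - 3) := e3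
                  _ ≤ 2 ^ E * Real.log n ^ (E - 3) := mul_le_mul_of_nonneg_right e5 (by positivity)
                  _ = _ := mul_comm _ _
    have hcard : ((exc (Rep ε E T) X q b).ncard : ℝ) ≤ 2 * (X / (q * l ^ (A + 3))) + y / (q * Real.log y ^ A₁) := by
      have e1 : (exc (Rep ε E T) X q b).ncard ≤ S₁.ncard + (exceptional 0 (C + 1) y q b).ncard :=
        (Set.ncard_le_ncard hsub (hf1.union key.1)).trans (Set.ncard_union_le _ _)
      have e2 : ((exc (Rep ε E T) X q b).ncard : ℝ) ≤ S₁.ncard + (exceptional 0 (C + 1) y q b).ncard := by exact_mod_cast e1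
      exact e2.trans (add_le_add hc1' key.2)
    refine hcard.trans ?_
    have f1 : y / (q * Real.log y ^ A₁) ≤ X / (q * l ^ (A + 2)) := by
      calc y / (q * Real.log y ^ A₁) ≤ y / (q * l ^ A₁) := by
            apply div_le_div_of_nonneg_left hy0.le (by positivity)
            exact mul_le_mul_of_nonneg_left (pow_le_pow_left₀ hl0.le g1 _) hq0.le
        _ = X / (q * l ^ (A + 2)) := by
            rw [hyX, hA₁, show C + 8 + A + 2 = (C + 8) + (A + 2) by ring, pow_add l (C + 8) (A + 2)]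
            field_simp
    have f2 : 2 * (X / (q * l ^ (A + 3))) ≤ X / (q * l ^ (A + 2)) := by
      calc 2 * (X / (q * l ^ (A + 3))) = X / (q * l ^ (A + 2)) * (2 / l) := by
            rw [pow_succ l (A + 2)]
            field_simp
        _ ≤ X / (q * l ^ (A + 2)) * 1 := by
            apply mul_le_mul_of_nonneg_left _ (by positivity)
            rw [div_le_one hl0]
            linarith
        _ = _ := mul_one _
    calc 2 * (X / (q * l ^ (A + 3))) + y / (q * Real.log y ^ A₁) ≤ X / (q * l ^ (A + 2)) + X / (q * l ^ (A + 2)) := add_le_add f2 f1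
      _ = X / (q * l ^ (A + 1)) * (2 / l) := by
          rw [pow_succ l (A + 1)]
          field_simp
          ring
      _ ≤ X / (q * l ^ (A + 1)) * 1 := by
          apply mul_le_mul_of_nonneg_left _ (by positivity)
          rw [div_le_one hl0]
          linarith
      _ = _ := mul_one _

end Pool.Agent.T9h51.RC
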