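import Pool.Agent.T9h51.RC.En

/-!
# The exceptional elements of the residue classes: small heights
-/

set_option autoImplicit false

namespace Pool.Agent.T9h51.RC

open Finset
open Pool.Agent.TH212.EH (En)

/-- the positive even `n ≤ x`, `n ≡ b mod q`, without the property `R` -/
def exc (R : ℕ → Prop) (x : ℝ) (q : ℕ) (b : ℤ) : Set ℕ := {n : ℕ | 0 < n ∧ (n : ℝ) ≤ x ∧ 2 ∣ n ∧ (n : ℤ) ≡ b [ZMOD q] ∧ ¬ R n}

lemma exc_finite (R : ℕ → Prop) (x : ℝ) (q : ℕ) (b : ℤ) : (exc R x q b).Finite := by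
  apply (Set.finite_Iic ⌊x⌋₊).subset
  rintro n ⟨h1, h2, _⟩
  exact Nat.le_floor h2

/-- the representative of a class in `(-q, 0]` -/
lemma class_rep (q : ℕ) (hq : 1 ≤ q) (b : ℤ) : ∃ a : ℤ, -(q : ℤ) < a ∧ a ≤ 0 ∧ a ≡ b [ZMOD q] ∧ ((q : ℤ) ∣ b → a = 0) := by
  have hq0 : (0 : ℤ) < q := by exact_mod_cast hq
  refine ⟨-((-b) % q), ?_, ?_, ?_, ?_⟩
  · have := Int.emod_lt_of_pos (-b) hq0
    omega
  · have := Int.emod_nonneg (-b) hq0.ne'
    omega
  · have h1 : (-b) % q ≡ -b [ZMOD q] := Int.mod_modEq _ _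
    have h2 := h1.neg
    rwa [neg_neg] at h2
  · intro h
    have h1 : (-b) % (q : ℤ) = 0 := Int.emod_eq_zero_of_dvd ((dvd_neg).2 h)
    rw [h1, neg_zero]

open Classical in
/-- few elements of a class -/
lemma class_count (q : ℕ) (hq : 1 ≤ q) (a : ℤ) (ha : -(q : ℤ) < a) (ha0 : a ≤ 0) (Z : ℝ) (hZ : 0 ≤ Z) (S : Set ℕ)
    (hS : ∀ n ∈ S, 0 < n ∧ (n : ℝ) ≤ Z ∧ (n : ℤ) ≡ a [ZMOD q]) : S.Finite ∧ (S.ncard : ℝ) ≤ (Z - a) / q := by
  have hq0 : (0 : ℝ) < q := by exact_mod_cast hq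
  have hfin : S.Finite := by
    apply (Set.finite_Iic ⌊Z⌋₊).subset
    intro n hn
    exact Nat.le_floor (hS n hn).2.1
  refine ⟨hfin, ?_⟩
  have har : (a : ℝ) ≤ 0 := by exact_mod_cast ha0
  have h1 : S ⊆ (fun m : ℕ => (a + m * q : ℤ).toNat) '' ((Icc 1 ⌊(Z - a) / q⌋₊ : Finset ℕ) : Set ℕ) := by
    intro n hn
    obtain ⟨k1, k2, k3⟩ := hS n hn
    obtain ⟨c, hc⟩ := (Int.modEq_iff_dvd.1 k3.symm)
    have hc1 : 0 < c := by
      by_contra hcon
      push Not at hcon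
      have hq' : (0 : ℤ) ≤ q := by positivity
      have : (q : ℤ) * c ≤ 0 := by nlinarith
      have hn' : (0 : ℤ) < n := by exact_mod_cast k1
      omega
    obtain ⟨m, rfl⟩ : ∃ m : ℕ, c = m := ⟨c.toNat, (Int.toNat_of_nonneg hc1.le).symm⟩
    refine ⟨m, ?_, ?_⟩
    · rw [mem_coe, mem_Icc]
      refine ⟨by exact_mod_cast hc1, ?_⟩
      apply Nat.le_floor
      rw [le_div_iff₀ hq0]
      have e1 : ((n : ℤ) : ℝ) - a = (q : ℝ) * m := by exact_mod_cast hc
      have e2 : ((n : ℤ) : ℝ) = (n : ℝ) := by norm_cast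
      rw [e2] at e1
      linarith
    · have e1 : a + m * q = (n : ℤ) := by
        have : (q : ℤ) * m = m * q := mul_comm _ _
        omega
      change (a + m * q : ℤ).toNat = n
      rw [e1, Int.toNat_natCast]
  calc (S.ncard : ℝ) ≤ ((Icc 1 ⌊(Z - a) / q⌋₊).card : ℝ) := by
        have e1 := (Set.ncard_le_ncard h1 (Set.Finite.image _ (finite_toSet _))).trans (Set.ncard_image_le (finite_toSet _))
        rw [Set.ncard_coe_finset] at e1
        exact_mod_cast e1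
    _ = (⌊(Z - a) / q⌋₊ : ℝ) := by
        rw [Nat.card_Icc]
        norm_num
    _ ≤ (Z - a) / q := Nat.floor_le (div_nonneg (by linarith) hq0.le)

open Classical in
/-- **Small heights.** -/
lemma low_core (R : ℕ → Prop) (A κ : ℕ) (N q : ℕ) (a b : ℤ) (x : ℝ) (hN : 4 ≤ N) (hL : 9 * 2 ^ A ≤ Real.log N) (hq : 1 ≤ q)
    (hqN : (N : ℝ) ≤ q * Real.log N ^ κ) (hxq : (q : ℝ) ≤ x) (hxN : x ≤ (N : ℝ) ^ 2) (hx1 : 0 < Real.log x)
    (ha : -(q : ℤ) < a) (ha0 : a ≤ 0) (hab : a ≡ b [ZMOD q]) (hax : (-a : ℝ) ≤ x / Real.log N ^ (A + 1))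
    (hgood : ∀ j : ℕ, 2 ^ j ≤ N ^ 3 → x / q ≤ 2 ^ j →
      (((Icc 1 (2 ^ j)).filter (fun m : ℕ => ∃ n : ℕ, 0 < n ∧ (n : ℤ) = a + m * q ∧
        ¬ (2 ∣ n → ((N * 2 ^ j : ℕ) : ℝ) / Real.log ((N * 2 ^ j : ℕ) : ℝ) ^ (κ + (A + 1)) ≤ n → R n))).card : ℝ) ≤ 2 ^ j / Real.log N ^ (A + 1)) :
    ((exc R x q b).ncard : ℝ) ≤ x / (q * Real.log x ^ A) := by
  obtain ⟨L, hLd⟩ : ∃ L, L = Real.log (N : ℝ) := ⟨_, rfl⟩
  rw [← hLd] at hL hqN hax hgood
  have hq0 : (0 : ℝ) < q := by exact_mod_cast hq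
  have hx0 : 0 < x := by linarith
  have hA1 : (1 : ℝ) ≤ 2 ^ A := one_le_pow₀ (by norm_num)
  have hL9 : 9 ≤ L := by linarith
  have hL0 : 0 < L := by linarith
  have hNr : (4 : ℝ) ≤ N := by exact_mod_cast hN
  have hN0 : (0 : ℝ) < N := by linarith
  have har : (a : ℝ) ≤ 0 := by exact_mod_cast ha0
  have haq : (-a : ℝ) < q := by
    have : (-a : ℤ) < q := by omega
    exact_mod_cast this
  have hlogx : Real.log x ≤ 2 * L := by
    have e1 := Real.log_le_log hx0 hxN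
    rw [Real.log_pow, ← hLd] at e1
    exact_mod_cast e1
  -- the dyadic scale
  have hxq1 : 1 ≤ x / q := by
    rw [le_div_iff₀ hq0]
    linarith
  obtain ⟨M, hM⟩ : ∃ M, M = ⌊x / q⌋₊ + 1 := ⟨_, rfl⟩
  have hM1 : x / q ≤ M := by
    rw [hM]
    push_cast
    exact (Nat.lt_floor_add_one _).le
  have hM2 : (M : ℝ) ≤ 2 * (x / q) := by
    rw [hM]
    push_cast
    have := Nat.floor_le (by positivity : 0 ≤ x / q)
    linarith
  have hM3 : 1 < M := by
    rw [hM]
    have : 1 ≤ ⌊x / q⌋₊ := Nat.le_floor (by exact_mod_cast hxq1)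
    omega
  obtain ⟨j, hj⟩ : ∃ j, j = Nat.clog 2 M := ⟨_, rfl⟩
  have hMj : M ≤ 2 ^ j := by
    rw [hj]
    exact Nat.le_pow_clog (by norm_num) M
  have hjM : 2 ^ j ≤ 2 * M := by
    have h2 := Nat.pow_pred_clog_lt_self (b := 2) (by norm_num) hM3
    rw [← hj] at h2
    have h3 : 1 ≤ j := by
      rw [hj]
      exact Nat.clog_pos (by norm_num) hM3
    have h4 : 2 ^ j = 2 ^ (j.pred) * 2 := by
      rw [← pow_succ]
      congr 1
      exact (Nat.succ_pred_eq_of_pos h3).symm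
    omega
  have hMjr : (M : ℝ) ≤ 2 ^ j := by exact_mod_cast hMj
  have hjx : (2 : ℝ) ^ j ≤ 4 * (x / q) := by
    have : (2 : ℝ) ^ j ≤ 2 * M := by exact_mod_cast hjM
    linarith
  have hjN : 2 ^ j ≤ N ^ 3 := by
    have e1 : ((2 ^ j : ℕ) : ℝ) ≤ ((N ^ 3 : ℕ) : ℝ) := by
      push_cast
      have e2 : x / q ≤ (N : ℝ) ^ 2 := (div_le_self hx0.le (by exact_mod_cast hq)).trans hxN
      calc (2 : ℝ) ^ j ≤ 4 * (x / q) := hjx
        _ ≤ N * (N : ℝ) ^ 2 := mul_le_mul hNr e2 (by positivity) hN0.le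
        _ = (N : ℝ) ^ 3 := by ring
    exact_mod_cast e1
  have key := hgood j hjN (hM1.trans hMjr)
  obtain ⟨Y, hY⟩ : ∃ Y, Y = N * 2 ^ j := ⟨_, rfl⟩
  have hYr : (Y : ℝ) = N * 2 ^ j := by rw [hY]; push_cast; rfl
  rw [← hY] at key
  have hNY : (N : ℝ) ≤ Y := by
    rw [hYr]
    exact le_mul_of_one_le_right hN0.le (one_le_pow₀ (by norm_num))
  have hLY : L ≤ Real.log (Y : ℝ) := by
    rw [hLd]
    exact Real.log_le_log hN0 hNY
  have hLY0 : 0 < Real.log (Y : ℝ) := by linarith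
  obtain ⟨Z, hZ⟩ : ∃ Z, Z = (Y : ℝ) / Real.log Y ^ (κ + (A + 1)) := ⟨_, rfl⟩
  have hZ0 : 0 ≤ Z := by rw [hZ]; positivity
  have hZ2 : Z ≤ 4 * x / L ^ (A + 1) := by
    calc Z ≤ (Y : ℝ) / L ^ (κ + (A + 1)) := by
          rw [hZ]
          exact div_le_div_of_nonneg_left (by positivity) (by positivity) (pow_le_pow_left₀ hL0.le hLY _)
      _ ≤ ((q * L ^ κ) * (4 * (x / q))) / L ^ (κ + (A + 1)) := by
          apply div_le_div_of_nonneg_right _ (by positivity)
          rw [hYr]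
          exact mul_le_mul hqN hjx (by positivity) (by positivity)
      _ = 4 * x / L ^ (A + 1) := by
          rw [pow_add]
          field_simp
  -- the two kinds of exceptional elements
  obtain ⟨S₁, hS₁⟩ : ∃ S₁ : Set ℕ, S₁ = {n | n ∈ exc R x q b ∧ (n : ℝ) ≤ Z} := ⟨_, rfl⟩
  obtain ⟨F, hF⟩ : ∃ F : Finset ℕ, F = (Icc 1 (2 ^ j)).filter (fun m : ℕ => ∃ n : ℕ, 0 < n ∧ (n : ℤ) = a + m * q ∧
        ¬ (2 ∣ n → (Y : ℝ) / Real.log Y ^ (κ + (A + 1)) ≤ n → R n)) := ⟨_, rfl⟩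
  rw [← hF] at key
  obtain ⟨hf1, hc1⟩ := class_count q hq a ha ha0 Z hZ0 S₁ (by
    intro n hn
    rw [hS₁] at hn
    exact ⟨hn.1.1, hn.2, hn.1.2.2.2.1.trans hab.symm⟩)
  have hsub : exc R x q b ⊆ S₁ ∪ ((fun m : ℕ => (a + m * q : ℤ).toNat) '' (F : Set ℕ)) := by
    intro n hn
    by_cases hnZ : (n : ℝ) ≤ Z
    · left
      rw [hS₁]
      exact ⟨hn, hnZ⟩
    · right
      push Not at hnZ
      obtain ⟨k1, k2, k3, k4, k5⟩ := hn
      obtain ⟨c, hc⟩ := (Int.modEq_iff_dvd.1 (k4.trans hab.symm).symm)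
      have hc1 : 0 < c := by
        by_contra hcon
        push Not at hcon
        have hq' : (0 : ℤ) ≤ q := by positivity
        have : (q : ℤ) * c ≤ 0 := by nlinarith
        have hn' : (0 : ℤ) < n := by exact_mod_cast k1
        omega
      obtain ⟨m, rfl⟩ : ∃ m : ℕ, c = m := ⟨c.toNat, (Int.toNat_of_nonneg hc1.le).symm⟩
      have e1 : (n : ℤ) = a + m * q := by
        have : (q : ℤ) * m = m * q := mul_comm _ _
        omega
      refine ⟨m, ?_, ?_⟩
      · rw [mem_coe, hF, mem_filter, mem_Icc]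
        refine ⟨⟨by exact_mod_cast hc1, ?_⟩, n, k1, e1, ?_⟩
        · have e2 : (m : ℝ) * q ≤ x + q := by
            have e3 : ((n : ℤ) : ℝ) = a + m * q := by exact_mod_cast e1
            have e4 : ((n : ℤ) : ℝ) = (n : ℝ) := by norm_cast
            rw [e4] at e3
            linarith
          have e5 : (m : ℝ) ≤ x / q + 1 := by
            rw [div_add_one hq0.ne', le_div_iff₀ hq0]
            exact e2
          have e6 : (m : ℝ) < M + 1 := by
            have e7 : (m : ℝ) * q < (x / q + 1) * q := by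
              have e3 : ((n : ℤ) : ℝ) = a + m * q := by exact_mod_cast e1
              have e4 : ((n : ℤ) : ℝ) = (n : ℝ) := by norm_cast
              rw [e4] at e3
              have : (x / q + 1) * q = x + q := by field_simp
              linarith
            have e8 : (m : ℝ) < x / q + 1 := lt_of_mul_lt_mul_right e7 hq0.le
            linarith
          have e9 : m < M + 1 := by exact_mod_cast e6
          omega
        · intro hcon
          apply k5
          apply hcon k3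
          rw [← hZ]
          exact hnZ.le
      · change (a + m * q : ℤ).toNat = n
        rw [← e1, Int.toNat_natCast]
  have hcard : ((exc R x q b).ncard : ℝ) ≤ (Z - a) / q + 2 ^ j / L ^ (A + 1) := by
    have e1 : (exc R x q b).ncard ≤ S₁.ncard + F.card := by
      refine (Set.ncard_le_ncard hsub (hf1.union (Set.Finite.image _ (finite_toSet _)))).trans ?_
      refine (Set.ncard_union_le _ _).trans ?_
      apply Nat.add_le_add_left
      refine (Set.ncard_image_le (finite_toSet _)).trans ?_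
      rw [Set.ncard_coe_finset]
    have e2 : ((exc R x q b).ncard : ℝ) ≤ S₁.ncard + F.card := by exact_mod_cast e1
    exact e2.trans (add_le_add hc1 key)
  refine hcard.trans ?_
  calc (Z - a) / q + 2 ^ j / L ^ (A + 1) ≤ (4 * x / L ^ (A + 1) + x / L ^ (A + 1)) / q + (4 * (x / q)) / L ^ (A + 1) := by
        apply add_le_add
        · apply div_le_div_of_nonneg_right _ hq0.le
          linarith
        · exact div_le_div_of_nonneg_right hjx (by positivity)
    _ = x / (q * (2 * L) ^ A) * (9 * 2 ^ A / L) := by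
        rw [pow_succ, mul_pow]
        field_simp
        ring
    _ ≤ x / (q * (2 * L) ^ A) * 1 := by
        apply mul_le_mul_of_nonneg_left _ (by positivity)
        rw [div_le_one hL0]
        exact hL
    _ = x / (q * (2 * L) ^ A) := mul_one _
    _ ≤ x / (q * Real.log x ^ A) := by
        apply div_le_div_of_nonneg_left hx0.le (by positivity)
        exact mul_le_mul_of_nonneg_left (pow_le_pow_left₀ hx1.le hlogx _) hq0.le

end Pool.Agent.T9h51.RC
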