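import Pool.Agent.T9h51.RC.High
import Pool.Agent.T9h51.PE.NoDiv
import Pool.Agent.T9h51.PE.VarAll
import Pool.Agent.T9h51.ME.Gen

/-!
# The exceptional elements of all residue classes at all heights
-/

set_option autoImplicit false

namespace Pool.Agent.T9h51.RC

open Finset
open Pool.Agent.TH212.EH (En)
open Pool.Agent.T9h51.PE (GoodM multiples_core no_divisors small_count)
open Pool.Agent.H560R3.GB (sing)

/-- few exceptional elements in the classes of the integers near `v` -/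
def GoodC (R : ℕ → Prop) (δ : ℝ) (A W : ℕ) (L : ℝ) (v : ℤ) : Prop := ∀ q : ℕ, 1 ≤ q → |(q : ℝ) - v| ≤ L ^ W → ∀ x : ℝ, (q : ℝ) ≤ x →
  ∀ b : ℤ, ((q : ℤ) ∣ b ∨ (q : ℝ) ^ (1 + δ) ≤ x) → ((exc R x q b).ncard : ℝ) ≤ x / (q * Real.log x ^ A)

lemma GoodC.anti {R : ℕ → Prop} {δ : ℝ} {A W : ℕ} (L L' : ℝ) (v : ℤ) (hL : 1 ≤ L) (hLL : L ≤ L') (h : GoodC R δ A W L' v) :
    GoodC R δ A W L v :=
  fun q hq1 hq2 => h q hq1 (hq2.trans (pow_le_pow_left₀ (by linarith) hLL _))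

open Classical in
/-- few members have small neighbours -/
theorem not_small (h B C W U : ℕ) (hh : 1 ≤ h) : ∃ N₀ : ℕ, ∀ N : ℕ, N₀ ≤ N → ∀ (ι : Type) [Fintype ι] (v : ι → ℤ),
    (∀ i, |v i| ≤ B * N) → (En h v : ℝ) * N ≤ Real.log N ^ C * (Fintype.card ι : ℝ) ^ (2 * h) →
    ((univ.filter (fun i => ∃ q : ℕ, |(q : ℝ) - v i| ≤ Real.log N ^ W ∧ (q : ℝ) * Real.log N ^ (C + 2 + U * (2 * h)) < N)).card : ℝ) ≤
      Fintype.card ι / Real.log N ^ U := by
  obtain ⟨κ, hκ⟩ : ∃ κ, κ = C + 2 + U * (2 * h) := ⟨_, rfl⟩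
  obtain ⟨n4, h4⟩ := Pool.Agent.H373R2.T7.ev_L' (3 * (2 * h + 1) + 8)
  obtain ⟨n5, h5⟩ := Pool.Agent.H373R2.T7.ev_log' (W + κ) 1
  refine ⟨n4 + n5 + 16, fun N hN ι _ v hv hE => ?_⟩
  rw [← hκ]
  rcases isEmpty_or_nonempty ι with hem | hne
  · have e1 : (univ.filter (fun i : ι => ∃ q : ℕ, |(q : ℝ) - v i| ≤ Real.log N ^ W ∧ (q : ℝ) * Real.log N ^ κ < N)).card = 0 := by
      rw [card_eq_zero]
      exact eq_empty_of_isEmpty _
    rw [e1, Nat.cast_zero]
    exact div_nonneg (Nat.cast_nonneg _) (pow_nonneg (Real.log_natCast_nonneg _) _)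
  have c4 := h4 N (by omega)
  have c5 := h5 N (by omega)
  rw [one_mul] at c5
  obtain ⟨L, hL⟩ : ∃ L, L = Real.log (N : ℝ) := ⟨_, rfl⟩
  have hN16 : (16 : ℝ) ≤ N := by exact_mod_cast (by omega : 16 ≤ N)
  have hN0 : (0 : ℝ) < N := by linarith
  have hcr : (0 : ℝ) < Fintype.card ι := by exact_mod_cast Fintype.card_pos
  rw [← hL] at c4 c5 hE ⊢
  have p1 : (0 : ℝ) ≤ h := Nat.cast_nonneg _
  have hL8 : 8 ≤ L := by linarith
  have hL1 : 1 ≤ L := by linarith
  have hL0 : 0 < L := by linarith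
  have hsN : √(N : ℝ) ≤ N := by
    rw [Real.sqrt_le_left (by linarith)]
    nlinarith
  have hLWκ : L ^ W * L ^ κ ≤ √(N : ℝ) := by rw [← pow_add]; exact c5
  have hLW1 : 1 ≤ L ^ W := one_le_pow₀ hL1
  have hLκ1 : 1 ≤ L ^ κ := one_le_pow₀ hL1
  obtain ⟨R, hR⟩ : ∃ R, R = ⌈2 * (N / L ^ κ)⌉₊ := ⟨_, rfl⟩
  have hLWκ' : L ^ W ≤ (N : ℝ) / L ^ κ := by
    rw [le_div_iff₀ (by positivity)]
    exact hLWκ.trans hsN
  have hNκ : 1 ≤ (N : ℝ) / L ^ κ := hLW1.trans hLWκ'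
  have hR1 : 2 * (N / L ^ κ) ≤ (R : ℝ) := by rw [hR]; exact Nat.le_ceil _
  have hR2 : (R : ℝ) ≤ 3 * (N / L ^ κ) := by
    have : (R : ℝ) < 2 * (N / L ^ κ) + 1 := by rw [hR]; exact Nat.ceil_lt_add_one (by positivity)
    linarith
  obtain ⟨S₀, hS₀⟩ : ∃ S₀ : Finset ι, S₀ = univ.filter (fun i => |v i| ≤ R) := ⟨_, rfl⟩
  have hS₀c : (S₀.card : ℝ) ≤ Fintype.card ι / L ^ U := by
    have e1 := small_count h v R (by
      have : (1 : ℝ) ≤ R := by linarith
      exact_mod_cast this) S₀ (fun i hi => by rw [hS₀] at hi; exact (mem_filter.1 hi).2)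
    have e2 : (S₀.card : ℝ) ^ (2 * h) * L ^ κ ≤ L ^ (C + 1) * (Fintype.card ι : ℝ) ^ (2 * h) := by
      calc (S₀.card : ℝ) ^ (2 * h) * L ^ κ ≤ ((((2 * h + 1) * R : ℕ) : ℝ) * En h v) * L ^ κ :=
            mul_le_mul_of_nonneg_right e1 (by positivity)
        _ = (2 * h + 1) * (R * L ^ κ) * En h v := by push_cast; ring
        _ ≤ (2 * h + 1) * (3 * N) * En h v := by
            apply mul_le_mul_of_nonneg_right _ (Nat.cast_nonneg _)
            apply mul_le_mul_of_nonneg_left _ (by positivity)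
            calc (R : ℝ) * L ^ κ ≤ (3 * (N / L ^ κ)) * L ^ κ := mul_le_mul_of_nonneg_right hR2 (by positivity)
              _ = 3 * N := by field_simp
        _ = (3 * (2 * h + 1)) * (En h v * N) := by ring
        _ ≤ L * (L ^ C * (Fintype.card ι : ℝ) ^ (2 * h)) := mul_le_mul (by linarith) hE (by positivity) hL0.le
        _ = _ := by ring
    rw [le_div_iff₀ (by positivity)]
    have e3 : ((S₀.card : ℝ) * L ^ U) ^ (2 * h) ≤ (Fintype.card ι : ℝ) ^ (2 * h) := by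
      have e4 : L ^ (C + 1) * ((S₀.card : ℝ) * L ^ U) ^ (2 * h) ≤ L ^ (C + 1) * (Fintype.card ι : ℝ) ^ (2 * h) := by
        refine le_trans ?_ e2
        rw [mul_pow, ← pow_mul]
        calc L ^ (C + 1) * ((S₀.card : ℝ) ^ (2 * h) * L ^ (U * (2 * h))) =
              (S₀.card : ℝ) ^ (2 * h) * L ^ (C + 1 + U * (2 * h)) := by rw [pow_add L (C + 1)]; ring
          _ ≤ (S₀.card : ℝ) ^ (2 * h) * L ^ κ := by
              apply mul_le_mul_of_nonneg_left _ (by positivity)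
              exact pow_le_pow_right₀ hL1 (by omega)
      exact le_of_mul_le_mul_left e4 (by positivity)
    exact (pow_le_pow_iff_left₀ (by positivity) hcr.le (by omega)).1 e3
  refine le_trans ?_ hS₀c
  apply Nat.cast_le.2
  apply card_le_card
  intro i hi
  rw [mem_filter] at hi
  obtain ⟨_, q, hq1, hq2⟩ := hi
  rw [hS₀, mem_filter]
  refine ⟨mem_univ _, ?_⟩
  have hq0 : (0 : ℝ) ≤ q := Nat.cast_nonneg _
  have hq3 : (q : ℝ) ≤ N / L ^ κ := by
    rw [le_div_iff₀ (by positivity)]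
    exact hq2.le
  have habs := abs_le.1 hq1
  have e1 : |(v i : ℝ)| ≤ R := by
    rw [abs_le]
    constructor <;> linarith [habs.1, habs.2]
  exact_mod_cast e1

/-- **Large heights.** -/
lemma high_x (R : ℕ → Prop) (A B N q : ℕ) (b : ℤ) (x : ℝ) (hN : (B + 1) ^ 6 + 8 ≤ N) (hL : 2 ≤ Real.log N) (hq1 : 1 ≤ q)
    (hqN : (q : ℝ) ≤ (B + 1) * N) (hx : (N : ℝ) ^ 2 < x)
    (hD : ∀ t : ℕ, N ≤ 2 ^ t → (q : ℝ) ≤ ((2 : ℝ) ^ t) ^ (2 / 3 - 1 / 12 : ℝ) →
      ((exc R (2 ^ t) q b).ncard : ℝ) ≤ 2 ^ t / (q * ((t : ℝ) * Real.log 2) ^ (A + 1))) :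
    ((exc R x q b).ncard : ℝ) ≤ x / (q * Real.log x ^ A) := by
  have hq0 : (0 : ℝ) < q := by exact_mod_cast hq1
  have hN2 : 8 ≤ N := by omega
  have hNr : (8 : ℝ) ≤ N := by exact_mod_cast hN2
  have hN0 : (0 : ℝ) < N := by linarith
  have hx4 : 64 < x := by nlinarith
  have hNx : (N : ℝ) ≤ x := by nlinarith
  obtain ⟨X, hX⟩ : ∃ X, X = ⌈x⌉₊ := ⟨_, rfl⟩
  have hxX : x ≤ X := by rw [hX]; exact Nat.le_ceil x
  have hXx : (X : ℝ) < x + 1 := by rw [hX]; exact Nat.ceil_lt_add_one (by linarith)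
  have hX1 : 1 < X := by
    have : (1 : ℝ) < X := by linarith
    exact_mod_cast this
  obtain ⟨t, ht⟩ : ∃ t, t = Nat.clog 2 X := ⟨_, rfl⟩
  have hXt : X ≤ 2 ^ t := by
    rw [ht]
    exact Nat.le_pow_clog (by norm_num) X
  have hxt : x ≤ 2 ^ t := hxX.trans (by exact_mod_cast hXt)
  have htx : (2 : ℝ) ^ t ≤ 2 * x := by
    have h2 := Nat.pow_pred_clog_lt_self (b := 2) (by norm_num) hX1
    rw [← ht] at h2
    have h3 : 1 ≤ t := by
      rw [ht]
      exact Nat.clog_pos (by norm_num) hX1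
    have h4 : 2 ^ t = 2 ^ (t.pred) * 2 := by
      rw [← pow_succ]
      congr 1
      exact (Nat.succ_pred_eq_of_pos h3).symm
    have h5 : 2 ^ (t.pred) + 1 ≤ X := h2
    have h6 : ((2 ^ (t.pred) : ℕ) : ℝ) + 1 ≤ X := by exact_mod_cast h5
    have h7 : (2 : ℝ) ^ t = ((2 ^ (t.pred) : ℕ) : ℝ) * 2 := by exact_mod_cast h4
    rw [h7]
    linarith
  have hNt : N ≤ 2 ^ t := by
    have h1 : (N : ℝ) ≤ ((2 ^ t : ℕ) : ℝ) := by
      push_cast
      linarith
    exact_mod_cast h1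
  have hq4 : (q : ℝ) ≤ ((2 : ℝ) ^ t) ^ (2 / 3 - 1 / 12 : ℝ) := by
    have h1 : ((N : ℝ) ^ 2) ^ (2 / 3 - 1 / 12 : ℝ) ≤ ((2 : ℝ) ^ t) ^ (2 / 3 - 1 / 12 : ℝ) :=
      Real.rpow_le_rpow (by positivity) (by linarith) (by norm_num)
    refine le_trans ?_ h1
    have h2 : ((N : ℝ) ^ 2) ^ (2 / 3 - 1 / 12 : ℝ) = (N : ℝ) ^ (1 / 6 : ℝ) * N := by
      rw [← Real.rpow_natCast, ← Real.rpow_mul hN0.le]
      nth_rewrite 3 [← Real.rpow_one (N : ℝ)]
      rw [← Real.rpow_add hN0]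
      norm_num
    rw [h2]
    refine hqN.trans (mul_le_mul_of_nonneg_right ?_ hN0.le)
    have h3 : ((B : ℝ) + 1) = (((B : ℝ) + 1) ^ 6) ^ (1 / 6 : ℝ) := by
      rw [← Real.rpow_natCast, ← Real.rpow_mul (by positivity)]
      norm_num
    rw [h3]
    apply Real.rpow_le_rpow (by positivity) _ (by norm_num)
    have h4 : (B + 1) ^ 6 ≤ N := by omega
    exact_mod_cast h4
  have key := hD t hNt hq4
  have hsub : exc R x q b ⊆ exc R (2 ^ t) q b := by
    rintro n ⟨h1, h2, h3⟩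
    exact ⟨h1, h2.trans hxt, h3⟩
  have hlogx2 : 2 ≤ Real.log x := hL.trans (Real.log_le_log hN0 hNx)
  have hlogx0 : 0 < Real.log x := by linarith
  have hlog : Real.log x ≤ (t : ℝ) * Real.log 2 := by
    have e1 := Real.log_le_log (by linarith) hxt
    rwa [Real.log_pow] at e1
  calc ((exc R x q b).ncard : ℝ) ≤ ((exc R (2 ^ t) q b).ncard : ℝ) := by
        exact_mod_cast Set.ncard_le_ncard hsub (exc_finite _ _ _ _)
    _ ≤ 2 ^ t / (q * ((t : ℝ) * Real.log 2) ^ (A + 1)) := key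
    _ ≤ (2 * x) / (q * Real.log x ^ (A + 1)) := by
        apply div_le_div₀ (by linarith) htx (by positivity)
        exact mul_le_mul_of_nonneg_left (pow_le_pow_left₀ hlogx0.le hlog _) hq0.le
    _ = x / (q * Real.log x ^ A) * (2 / Real.log x) := by
        rw [pow_succ]
        field_simp
    _ ≤ x / (q * Real.log x ^ A) * 1 := by
        have hx0 : 0 < x := by linarith
        apply mul_le_mul_of_nonneg_left _ (by positivity)
        rw [div_le_one hlogx0]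
        exact hlogx2
    _ = _ := mul_one _

open Classical in
/-- **All classes, all heights.** -/
theorem all_classes (ε : ℝ) (hε : 0 < ε) (hε1 : ε ≤ 1 / 2) (E T A : ℕ) (hE : A + 15 ≤ E) (δ : ℝ) (hδ : 0 < δ) (W U : ℕ) :
    Pool.Agent.T9h51.ME.Gen.AllG (GoodC (Rep ε E T) δ A W) U := by
  intro h B C hh
  obtain ⟨κ, hκ⟩ : ∃ κ, κ = C + 2 + (U + 2) * (2 * h) := ⟨_, rfl⟩
  obtain ⟨T₁, hT₁⟩ : ∃ T₁, T₁ = ⌈2 / δ⌉₊ := ⟨_, rfl⟩
  obtain ⟨m₀, hm₀⟩ := not_small h B C W (U + 2) hh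
  obtain ⟨h1', C1', -, hcls⟩ := classes_core h B C (A + 1) 3 T₁ (U + 2) W hh
  obtain ⟨m₁, hm₁⟩ := hcls _ (holds_rep ε hε hε1 E T (κ + (A + 1)) h1' (2 * (B + 1)) C1' (A + 1 + (U + 2 + W + 4)))
  obtain ⟨h2', C2', -, hmul⟩ := multiples_core h B C (A + 1) 3 (U + 2) W hh
  obtain ⟨m₂, hm₂⟩ := hmul _ (holds_rep ε hε hε1 E T (κ + (A + 1)) h2' (B + 1) C2' (A + 1 + (U + 2 + W + 4)))
  obtain ⟨c, hc⟩ := rep_high ε hε hε1 E T A hE
  obtain ⟨T', hT'⟩ := no_divisors h B C (U + 2) W c hh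
  obtain ⟨t₀, D, hD, hhigh⟩ := hc T'
  obtain ⟨m₃, hm₃⟩ := hT' t₀
  have hm₃' := hm₃ D hD
  obtain ⟨m₄, hlog⟩ := Pool.Agent.H373R2.T7.ev_L' (9 * 2 ^ A)
  obtain ⟨m₅, hpow⟩ := Pool.Agent.H373R2.T7.ev_log' (W + κ) 1
  obtain ⟨x₁, hx₁⟩ := Filter.eventually_atTop.1 (Pool.Agent.R460.GS.real_log (A + 1) (s := δ / 2) (by positivity) 0)
  obtain ⟨P₀, hP₀⟩ : ∃ P₀ : ℕ, P₀ = 2 ^ t₀ := ⟨_, rfl⟩
  obtain ⟨B₀, hB₀⟩ : ∃ B₀ : ℕ, B₀ = (B + 1) ^ 6 := ⟨_, rfl⟩
  refine ⟨m₀ + m₁ + m₂ + m₃ + m₄ + m₅ + ⌈x₁⌉₊ + P₀ + B₀ + 16, fun N hN ι _ v hv hE => ?_⟩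
  have k0 := hm₀ N (by omega) ι v hv hE
  have k1 := hm₁ N (by omega) ι v hv hE
  have k2 := hm₂ N (by omega) ι v hv hE
  have k3 := hm₃' N (by omega) ι v hv hE
  have hLbig := hlog N (by omega)
  have hsq := hpow N (by omega)
  rw [one_mul] at hsq
  have hxN := (hx₁ N ((Nat.le_ceil _).trans (by exact_mod_cast (by omega : ⌈x₁⌉₊ ≤ N)))).2
  rw [← hκ] at k0
  obtain ⟨L, hL⟩ : ∃ L, L = Real.log (N : ℝ) := ⟨_, rfl⟩
  rw [← hL] at k0 k1 k2 k3 hLbig hsq hxN hE ⊢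
  have hA1 : (1 : ℝ) ≤ 2 ^ A := one_le_pow₀ (by norm_num)
  have hL9 : 9 ≤ L := by linarith
  have hL1 : 1 ≤ L := by linarith
  have hL0 : 0 < L := by linarith
  have hN16 : (16 : ℝ) ≤ N := by exact_mod_cast (by omega : 16 ≤ N)
  have hN0 : (0 : ℝ) < N := by linarith
  have hsN : √(N : ℝ) ≤ N := by
    rw [Real.sqrt_le_left (by linarith)]
    nlinarith
  have hLWκ : L ^ W * L ^ κ ≤ √(N : ℝ) := by rw [← pow_add]; exact hsq
  have hLW1 : 1 ≤ L ^ W := one_le_pow₀ hL1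
  have hLκ1 : 1 ≤ L ^ κ := one_le_pow₀ hL1
  have hLWN : L ^ W ≤ N := by nlinarith
  have hLκ : L ^ κ ≤ √(N : ℝ) := by nlinarith
  have hsub : univ.filter (fun i => ¬ GoodC (Rep ε E T) δ A W L (v i)) ⊆
      (univ.filter (fun i => ∃ q : ℕ, |(q : ℝ) - v i| ≤ L ^ W ∧ (q : ℝ) * L ^ κ < N) ∪
        univ.filter (fun i => ¬ GoodA (PRep ε E T (κ + (A + 1))) B (A + 1) 3 T₁ W N (v i))) ∪
      (univ.filter (fun i => ¬ GoodM (PRep ε E T (κ + (A + 1))) (A + 1) 3 W N (v i)) ∪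
        univ.filter (fun i => ∃ q : ℕ, 1 ≤ q ∧ |(q : ℝ) - v i| ≤ L ^ W ∧ ∃ t : ℕ, N ≤ 2 ^ t ∧ ∃ d ∈ D t, d ∣ q)) := by
    intro i hi
    rw [mem_filter] at hi
    rw [mem_union, mem_union, mem_union, mem_filter, mem_filter, mem_filter, mem_filter]
    by_contra hcon
    push Not at hcon
    obtain ⟨⟨c0, c1⟩, c2, c3⟩ := hcon
    apply hi.2
    intro q hq1 hq2 x hqx b hb
    have hq0 : (0 : ℝ) < q := by exact_mod_cast hq1
    have g0 := c0 (mem_univ _) q hq2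
    have g1 := c1 (mem_univ _)
    have g2 := c2 (mem_univ _)
    have g3 := c3 (mem_univ _) q hq1 hq2
    have hx0 : 0 < x := by linarith
    rcases le_or_gt x ((N : ℝ) ^ 2) with hxN2 | hxN2
    · -- small heights
      have hqsq : √(N : ℝ) ≤ q := by
        have e1 : √(N : ℝ) * √(N : ℝ) ≤ q * √(N : ℝ) := by
          rw [Real.mul_self_sqrt hN0.le]
          exact g0.trans (mul_le_mul_of_nonneg_left hLκ hq0.le)
        exact le_of_mul_le_mul_right e1 (Real.sqrt_pos.2 hN0)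
      have hq4 : (4 : ℝ) ≤ q := by
        refine le_trans ?_ hqsq
        rw [show (4 : ℝ) = √16 by rw [show (16 : ℝ) = 4 ^ 2 by norm_num]; exact (Real.sqrt_sq (by norm_num)).symm]
        exact Real.sqrt_le_sqrt hN16
      have hlogx : 0 < Real.log x := Real.log_pos (by linarith)
      obtain ⟨a, ha1, ha2, ha3, ha4⟩ := class_rep q hq1 b
      have haq : (-a : ℝ) < q := by
        have : (-a : ℤ) < q := by omega
        exact_mod_cast this
      rcases hb with hb | hb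
      · have ha := ha4 hb
        subst ha
        apply low_core (Rep ε E T) A κ N q 0 b x (by omega) (by rw [← hL]; exact hLbig) hq1 (by rw [← hL]; exact g0) hqx hxN2 hlogx
          ha1 ha2 ha3 (by
            rw [Int.cast_zero, neg_zero, ← hL]
            positivity)
        intro j hj _
        rw [← hL]
        have e1 := g2 q hq1 (by rw [← hL]; exact hq2) j hj
        rw [← hL] at e1
        refine le_trans ?_ e1
        apply Nat.cast_le.2
        apply card_le_card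
        intro m hm
        rw [mem_filter] at hm ⊢
        obtain ⟨hm1, n, hn1, hn2, hn3⟩ := hm
        refine ⟨hm1, ?_⟩
        have e2 : m * q = n := by
          have : (n : ℤ) = m * q := by rw [hn2]; ring
          exact_mod_cast this.symm
        rw [e2]
        exact hn3
      · have hqδ : L ^ (A + 1) ≤ (q : ℝ) ^ δ := by
          refine hxN.trans ?_
          have e1 : (N : ℝ) ^ (δ / 2) = (√(N : ℝ)) ^ δ := by
            rw [Real.sqrt_eq_rpow, ← Real.rpow_mul hN0.le]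
            congr 1
            ring
          rw [e1]
          exact Real.rpow_le_rpow (Real.sqrt_nonneg _) hqsq hδ.le
        have hNq : (N : ℝ) ^ (δ / 2) ≤ (q : ℝ) ^ δ := by
          have e1 : (N : ℝ) ^ (δ / 2) = (√(N : ℝ)) ^ δ := by
            rw [Real.sqrt_eq_rpow, ← Real.rpow_mul hN0.le]
            congr 1
            ring
          rw [e1]
          exact Real.rpow_le_rpow (Real.sqrt_nonneg _) hqsq hδ.le
        have hb' : (q : ℝ) * (q : ℝ) ^ δ ≤ x := by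
          rwa [Real.rpow_add hq0, Real.rpow_one] at hb
        have hxq : (q : ℝ) ^ δ ≤ x / q := by
          rw [le_div_iff₀ hq0]
          linarith
        apply low_core (Rep ε E T) A κ N q a b x (by omega) (by rw [← hL]; exact hLbig) hq1 (by rw [← hL]; exact g0) hqx hxN2 hlogx
          ha1 ha2 ha3 (by
            rw [← hL, le_div_iff₀ (by positivity)]
            have e1 : (0 : ℝ) ≤ -a := by
              have : (0 : ℤ) ≤ -a := by omega
              exact_mod_cast this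
            calc (-a : ℝ) * L ^ (A + 1) ≤ q * (q : ℝ) ^ δ := mul_le_mul haq.le hqδ (by positivity) hq0.le
              _ ≤ x := hb')
        intro j hj hj2
        rw [← hL]
        have hT : N ≤ (2 ^ j) ^ T₁ := by
          have e1 : (N : ℝ) ≤ ((2 : ℝ) ^ j) ^ T₁ := by
            calc (N : ℝ) = (N : ℝ) ^ (1 : ℝ) := (Real.rpow_one _).symm
              _ ≤ (N : ℝ) ^ (δ / 2 * T₁) := by
                  apply Real.rpow_le_rpow_of_exponent_le (by linarith)
                  have e2 : 2 / δ ≤ T₁ := by rw [hT₁]; exact Nat.le_ceil _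
                  rw [div_le_iff₀ hδ] at e2
                  linarith
              _ = ((N : ℝ) ^ (δ / 2)) ^ T₁ := by rw [Real.rpow_mul hN0.le, Real.rpow_natCast]
              _ ≤ ((2 : ℝ) ^ j) ^ T₁ := pow_le_pow_left₀ (by positivity) ((hNq.trans hxq).trans hj2) _
          exact_mod_cast e1
        have haB : |a| ≤ ((B + 1) * N : ℕ) := by
          rw [abs_of_nonpos ha2]
          have e1 := (abs_le.1 hq2).2
          have e2 : (v i : ℝ) ≤ B * N := by
            have := (le_abs_self (v i)).trans (hv i)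
            exact_mod_cast this
          have e3 : (q : ℝ) ≤ (B + 1) * N := by linarith
          have e4 : (q : ℤ) ≤ ((B + 1) * N : ℕ) := by exact_mod_cast e3
          omega
        have e1 := g1 q hq1 (by rw [← hL]; exact hq2) j hj hT a haB
        rw [← hL] at e1
        refine le_trans (le_of_eq ?_) e1
        congr!
    · -- large heights
      apply high_x (Rep ε E T) A B N q b x (by omega) (by rw [← hL]; linarith) hq1 _ hxN2
      · intro t ht hqt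
        have htt : t₀ ≤ t := by
          have e1 : 2 ^ t₀ ≤ 2 ^ t := by
            rw [← hP₀]
            exact le_trans (by omega) ht
          exact (Nat.pow_le_pow_iff_right (by norm_num)).1 e1
        exact hhigh t htt q hq1 hqt (fun d hd => g3 t ht d hd) b
      · have e1 := (abs_le.1 hq2).2
        have e2 : (v i : ℝ) ≤ B * N := by
          have := (le_abs_self (v i)).trans (hv i)
          exact_mod_cast this
        linarith
  have hcr : (0 : ℝ) ≤ Fintype.card ι := Nat.cast_nonneg _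
  have hu : (((univ.filter (fun i => ∃ q : ℕ, |(q : ℝ) - v i| ≤ L ^ W ∧ (q : ℝ) * L ^ κ < N) ∪
        univ.filter (fun i => ¬ GoodA (PRep ε E T (κ + (A + 1))) B (A + 1) 3 T₁ W N (v i))) ∪
      (univ.filter (fun i => ¬ GoodM (PRep ε E T (κ + (A + 1))) (A + 1) 3 W N (v i)) ∪
        univ.filter (fun i => ∃ q : ℕ, 1 ≤ q ∧ |(q : ℝ) - v i| ≤ L ^ W ∧ ∃ t : ℕ, N ≤ 2 ^ t ∧ ∃ d ∈ D t, d ∣ q))).card : ℝ) ≤
      ((univ.filter (fun i => ∃ q : ℕ, |(q : ℝ) - v i| ≤ L ^ W ∧ (q : ℝ) * L ^ κ < N)).card : ℝ) +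
        ((univ.filter (fun i => ¬ GoodA (PRep ε E T (κ + (A + 1))) B (A + 1) 3 T₁ W N (v i))).card : ℝ) +
      (((univ.filter (fun i => ¬ GoodM (PRep ε E T (κ + (A + 1))) (A + 1) 3 W N (v i))).card : ℝ) +
        ((univ.filter (fun i => ∃ q : ℕ, 1 ≤ q ∧ |(q : ℝ) - v i| ≤ L ^ W ∧ ∃ t : ℕ, N ≤ 2 ^ t ∧ ∃ d ∈ D t, d ∣ q)).card : ℝ)) := by
    exact_mod_cast (card_union_le _ _).trans (Nat.add_le_add (card_union_le _ _) (card_union_le _ _))
  calc ((univ.filter (fun i => ¬ GoodC (Rep ε E T) δ A W L (v i))).card : ℝ) ≤ _ := Nat.cast_le.2 (card_le_card hsub)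
    _ ≤ _ := hu
    _ ≤ (Fintype.card ι / L ^ (U + 2) + Fintype.card ι / L ^ (U + 2)) + (Fintype.card ι / L ^ (U + 2) + Fintype.card ι / L ^ (U + 2)) :=
        add_le_add (add_le_add k0 k1) (add_le_add k2 k3)
    _ = Fintype.card ι / L ^ U * (4 / L ^ 2) := by
        rw [pow_add]
        field_simp
        ring
    _ ≤ Fintype.card ι / L ^ U * 1 := by
        apply mul_le_mul_of_nonneg_left _ (by positivity)
        rw [div_le_one (by positivity)]
        nlinarith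
    _ = _ := mul_one _

/-- the numbers with the formula are differences of two primes -/
lemma rep_diff (ε : ℝ) (hε1 : ε ≤ 1 / 2) (E T n : ℕ) (hn : 0 < n) (h2 : 2 ∣ n) (h : Rep ε E T n) : ∃ p : ℕ, p.Prime ∧ (p + n).Prime := by
  rcases Nat.lt_or_ge n 4 with h4 | h4
  · have : n = 2 := by omega
    subst this
    exact ⟨3, by norm_num, by norm_num⟩
  have hnr : (4 : ℝ) ≤ n := by exact_mod_cast h4
  have hl : 1 ≤ Real.log (n : ℝ) := by
    have e1 := Real.log_le_log (by norm_num) hnr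
    have e2 : Real.log 4 = 2 * Real.log 2 := by
      rw [show (4 : ℝ) = 2 ^ 2 by norm_num, Real.log_pow]
      norm_num
    have := Real.log_two_gt_d9
    linarith
  have hl0 : 0 < Real.log (n : ℝ) := by linarith
  have key := h 0 (n * Real.log n ^ E) le_rfl (by
    apply mul_le_mul_of_nonneg_left _ (by linarith)
    exact pow_le_pow_right₀ hl (by omega)) (by rw [sub_zero])
  have hs : 1 ≤ sing n := Pool.Agent.R460.GS.one_le_sing n
  have hpos : 0 < sing n * (n * Real.log n ^ E - 0) / Real.log n ^ 2 := by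
    rw [sub_zero]
    have : (0 : ℝ) < sing n := by linarith
    positivity
  have h3 := (abs_le.1 key).1
  have h5 : (0 : ℝ) < win n 0 (n * Real.log n ^ E) := by nlinarith
  have h6 : 0 < win n 0 (n * Real.log n ^ E) := by exact_mod_cast h5
  obtain ⟨p, hp⟩ := card_pos.1 h6
  rw [mem_filter] at hp
  exact ⟨p, hp.2⟩

end Pool.Agent.T9h51.RC
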