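import Pool.Agent.TH935.DF4
import Pool.Agent.R460.GQ.Tup
import Pool.Agent.R460.GS.Fin

/-!
# Prime pairs in windows: the asymptotic formula with respect to the size of the difference
-/

set_option autoImplicit false

namespace Pool.Agent.T9h51.RC

open Finset
open Pool.Agent.H560R3.GB (sing)
open Pool.Agent.TH935.DF (HC cc)
open Pool.Agent.R460.GQ (piP HoldsP cP)
open Pool.Agent.W93.PP (Li2 intble)

/-- the number of the primes `p` in `(u, v]` for which `p + n` is prime -/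
noncomputable def win (n : ℕ) (u v : ℝ) : ℕ := ((Ioc ⌊u⌋₊ ⌊v⌋₊).filter (fun p => p.Prime ∧ (p + n).Prime)).card

/-- the formula of Hardy and Littlewood for all windows -/
def Rep (ε : ℝ) (E T n : ℕ) : Prop := ∀ u v : ℝ, 0 ≤ u → v ≤ n * Real.log n ^ (E + T) → n * Real.log n ^ E ≤ v - u →
  |(win n u v : ℝ) - sing n * (v - u) / Real.log n ^ 2| ≤ ε * (sing n * (v - u) / Real.log n ^ 2)

lemma ev_loglog (κ : ℕ) (ε : ℝ) (hε : 0 < ε) : ∃ n₀ : ℕ, ∀ n : ℕ, n₀ ≤ n → κ * Real.log (Real.log n) ≤ ε * Real.log n := by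
  have h1 := Real.isLittleO_log_id_atTop.bound (c := ε / (κ + 1)) (by positivity)
  have h2 : Filter.Tendsto (fun n : ℕ => Real.log (n : ℝ)) Filter.atTop Filter.atTop :=
    Real.tendsto_log_atTop.comp (tendsto_natCast_atTop_atTop (R := ℝ))
  have h3 := h2.eventually h1
  have h4 := h2.eventually (Filter.eventually_ge_atTop (1 : ℝ))
  obtain ⟨n₀, hn₀⟩ := Filter.eventually_atTop.1 (h3.and h4)
  refine ⟨n₀, fun n hn => ?_⟩
  obtain ⟨h5, h6⟩ := hn₀ n hn
  simp only [id_eq, Real.norm_eq_abs] at h5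
  have h7 : 0 ≤ Real.log (Real.log n) := Real.log_nonneg h6
  rw [abs_of_nonneg h7, abs_of_nonneg (by linarith)] at h5
  have hκ : (0 : ℝ) ≤ κ := Nat.cast_nonneg _
  calc κ * Real.log (Real.log n) ≤ (κ + 1) * Real.log (Real.log n) := by nlinarith
    _ ≤ (κ + 1) * (ε / (κ + 1) * Real.log n) := mul_le_mul_of_nonneg_left h5 (by positivity)
    _ = ε * Real.log n := by field_simp

/-- the comparison of the main terms -/
lemma conv (ε s c d D l l' : ℝ) (hε : 0 < ε) (hε1 : ε ≤ 1 / 20) (hs : 0 ≤ s) (hD : 1 ≤ ε * D) (hdD : |d - D| ≤ 1) (hl : 0 < l)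
    (hll : l ≤ l') (hll' : l' ≤ (1 + ε) * l) (h : |c - s * d / l' ^ 2| ≤ ε * (s * d / l' ^ 2)) :
    |c - s * D / l ^ 2| ≤ 10 * ε * (s * D / l ^ 2) := by
  have hl' : 0 < l' := by linarith
  have hD0 : 0 < D := by
    by_contra hcon
    push Not at hcon
    nlinarith
  have hd := abs_le.1 hdD
  have h1 : d ≤ (1 + ε) * D := by nlinarith
  have h2 : (1 - ε) * D ≤ d := by nlinarith
  have hd0 : 0 ≤ d := by nlinarith
  obtain ⟨X, hX⟩ : ∃ X, X = s * D / l ^ 2 := ⟨_, rfl⟩
  obtain ⟨Y, hY⟩ : ∃ Y, Y = s * d / l' ^ 2 := ⟨_, rfl⟩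
  have hX0 : 0 ≤ X := by rw [hX]; positivity
  have hY1 : Y ≤ (1 + ε) * X := by
    rw [hX, hY]
    calc s * d / l' ^ 2 ≤ s * ((1 + ε) * D) / l ^ 2 := by
          apply div_le_div₀ (by positivity) (mul_le_mul_of_nonneg_left h1 hs) (by positivity)
          exact pow_le_pow_left₀ hl.le hll 2
      _ = _ := by ring
  have hY2 : (1 - 3 * ε) * X ≤ Y := by
    rw [hX, hY, le_div_iff₀ (by positivity)]
    have e1 : l' ^ 2 ≤ (1 + ε) ^ 2 * l ^ 2 := by
      rw [← mul_pow]
      exact pow_le_pow_left₀ hl'.le hll' 2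
    have e2 : 0 ≤ (1 - 3 * ε) * (s * D / l ^ 2) := by
      have : 0 ≤ 1 - 3 * ε := by linarith
      positivity
    calc (1 - 3 * ε) * (s * D / l ^ 2) * l' ^ 2 ≤ (1 - 3 * ε) * (s * D / l ^ 2) * ((1 + ε) ^ 2 * l ^ 2) :=
          mul_le_mul_of_nonneg_left e1 e2
      _ = ((1 - 3 * ε) * (1 + ε) ^ 2) * (s * D) := by field_simp
      _ ≤ (1 - ε) * (s * D) := by
          apply mul_le_mul_of_nonneg_right _ (by positivity)
          nlinarith [sq_nonneg ε, mul_pos hε hε]
      _ = s * ((1 - ε) * D) := by ring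
      _ ≤ s * d := mul_le_mul_of_nonneg_left h2 hs
  rw [← hX]
  rw [← hY] at h
  have h3 := abs_le.1 h
  have hY0 : 0 ≤ Y := by rw [hY]; positivity
  have e3 : ε * Y ≤ ε * ((1 + ε) * X) := mul_le_mul_of_nonneg_left hY1 hε.le
  have e4 : ε * ((1 + ε) * X) ≤ 2 * ε * X := by
    have : (1 + ε) * X ≤ 2 * X := mul_le_mul_of_nonneg_right (by linarith) hX0
    nlinarith
  have e5 : 0 ≤ ε * X := by positivity
  rw [abs_le]
  constructor <;> nlinarith [h3.1, h3.2]

/-- the size of the logarithms -/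
lemma log_ratio (κ : ℕ) (ε : ℝ) (n : ℕ) (N : ℝ) (hn : 3 ≤ n) (hL : κ * Real.log (Real.log n) ≤ ε * Real.log n) (hN1 : (n : ℝ) ≤ N)
    (hN2 : N ≤ n * Real.log n ^ κ) : Real.log n ≤ Real.log N ∧ Real.log N ≤ (1 + ε) * Real.log n := by
  have hn0 : (0 : ℝ) < n := by exact_mod_cast (by omega : 0 < n)
  have hn1 : (1 : ℝ) < n := by exact_mod_cast (by omega : 1 < n)
  have hl0 : 0 < Real.log (n : ℝ) := Real.log_pos hn1
  refine ⟨Real.log_le_log hn0 hN1, ?_⟩
  have h1 := Real.log_le_log (by linarith) hN2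
  rw [Real.log_mul (by positivity) (by positivity), Real.log_pow] at h1
  linarith

/-- from the formula at a scale close to the difference -/
theorem rep_of_HC (ε : ℝ) (hε : 0 < ε) (hε1 : ε ≤ 1 / 2) (E T κ : ℕ) : ∃ n₀ : ℕ, ∀ N n : ℕ, n₀ ≤ n →
    (n : ℝ) * Real.log n ^ (E + T) ≤ N → (N : ℝ) ≤ n * Real.log n ^ κ → HC (ε / 10) (κ + 1) 0 1 N n → Rep ε E T n := by
  obtain ⟨n1, h1⟩ := ev_loglog κ (ε / 10) (by positivity)
  obtain ⟨n2, h2⟩ := Pool.Agent.H373R2.T7.ev_L' 2
  refine ⟨n1 + n2 + ⌈20 / ε⌉₊ + 3, fun N n hn hN1 hN2 hHC u v hu hv huv => ?_⟩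
  have c1 := h1 n (by omega)
  have hl2 := h2 n (by omega)
  have hn0 : (0 : ℝ) < n := by exact_mod_cast (by omega : 0 < n)
  have hnε : 20 / ε ≤ n := (Nat.le_ceil _).trans (by exact_mod_cast (by omega : ⌈20 / ε⌉₊ ≤ n))
  have hl1 : 1 ≤ Real.log (n : ℝ) := by linarith
  have hnN : (n : ℝ) ≤ N := le_trans (le_mul_of_one_le_right hn0.le (one_le_pow₀ hl1)) hN1
  obtain ⟨g1, g2⟩ := log_ratio κ (ε / 10) n N (by omega) c1 hnN hN2
  have huv' : (n : ℝ) ≤ v - u := le_trans (le_mul_of_one_le_right hn0.le (one_le_pow₀ hl1)) huv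
  have hv0 : 0 ≤ v := by linarith
  obtain ⟨y₁, hy₁⟩ : ∃ y₁, y₁ = ⌊u⌋₊ := ⟨_, rfl⟩
  obtain ⟨y₂, hy₂⟩ : ∃ y₂, y₂ = ⌊v⌋₊ := ⟨_, rfl⟩
  have e1 : (y₁ : ℝ) ≤ u := by rw [hy₁]; exact Nat.floor_le hu
  have e2 : u < y₁ + 1 := by rw [hy₁]; exact Nat.lt_floor_add_one u
  have e3 : (y₂ : ℝ) ≤ v := by rw [hy₂]; exact Nat.floor_le hv0
  have e4 : v < y₂ + 1 := by rw [hy₂]; exact Nat.lt_floor_add_one v
  have hn40 : (40 : ℝ) ≤ n := by
    refine le_trans ?_ hnε
    rw [le_div_iff₀ hε]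
    linarith
  have h12 : y₁ < y₂ := by
    have : (y₁ : ℝ) < y₂ := by linarith
    exact_mod_cast this
  have hyN : y₂ ≤ 1 * N := by
    rw [one_mul]
    have : (y₂ : ℝ) ≤ N := e3.trans (hv.trans hN1)
    exact_mod_cast this
  have hlN : 2 ≤ Real.log (N : ℝ) := by linarith
  have hwin : (N : ℝ) / Real.log N ^ (κ + 1) ≤ (y₂ : ℝ) - y₁ := by
    have e5 : (N : ℝ) / Real.log N ^ (κ + 1) ≤ n / 2 := by
      rw [div_le_div_iff₀ (by positivity) (by norm_num)]
      calc (N : ℝ) * 2 ≤ (n * Real.log n ^ κ) * 2 := mul_le_mul_of_nonneg_right hN2 (by norm_num)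
        _ ≤ (n * Real.log N ^ κ) * Real.log N := by
            apply mul_le_mul _ hlN (by norm_num) (by positivity)
            exact mul_le_mul_of_nonneg_left (pow_le_pow_left₀ (by linarith) g1 _) hn0.le
        _ = n * Real.log N ^ (κ + 1) := by rw [pow_succ]; ring
    linarith
  have key := hHC 1 1 le_rfl (by rw [pow_zero]; norm_num) (Nat.coprime_one_right _) (Nat.coprime_one_right _) y₁ y₂ h12 hyN hwin
  have hCnt : Pool.Agent.W93.PP.Cnt 1 n = 1 := by
    unfold Pool.Agent.W93.PP.Cnt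
    rw [filter_true_of_mem]
    · rfl
    · intro α _
      exact ⟨Nat.coprime_one_right _, Nat.coprime_one_right _⟩
  have hcc : cc 1 1 n y₁ y₂ = win n u v := by
    classical
    unfold cc win
    rw [← hy₁, ← hy₂]
    congr 1
    ext p
    simp only [mem_filter]
    constructor
    · rintro ⟨f1, f2, f3, _⟩
      exact ⟨f1, f2, f3⟩
    · rintro ⟨f1, f2, f3⟩
      exact ⟨f1, f2, f3, Nat.modEq_one⟩
  rw [hCnt, hcc, Nat.cast_one, one_mul] at key
  have hs : 0 ≤ sing n := zero_le_one.trans (Pool.Agent.R460.GS.one_le_sing n)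
  have res := conv (ε / 10) (sing n) (win n u v) ((y₂ : ℝ) - y₁) (v - u) (Real.log n) (Real.log N) (by positivity) (by linarith) hs (by
    have : (20 : ℝ) ≤ ε * n := by
      rw [div_le_iff₀ hε] at hnε
      linarith
    nlinarith) (by rw [abs_le]; constructor <;> linarith) (by linarith) g1 g2 key
  rw [show 10 * (ε / 10) = ε by ring] at res
  exact res

lemma piP_sub (n : ℕ) (u v : ℝ) (huv : u ≤ v) : (win n u v : ℝ) = (piP n v : ℝ) - piP n u := by
  have h1 : piP n v = piP n u + win n u v := by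
    unfold piP win
    rw [← card_union_of_disjoint]
    · congr 1
      ext p
      simp only [mem_filter, mem_union, mem_range, mem_Ioc]
      have h2 : ⌊u⌋₊ ≤ ⌊v⌋₊ := Nat.floor_le_floor huv
      constructor
      · rintro ⟨f1, f2⟩
        by_cases h3 : p ≤ ⌊u⌋₊
        · exact Or.inl ⟨by omega, f2⟩
        · exact Or.inr ⟨⟨by omega, by omega⟩, f2⟩
      · rintro (⟨f1, f2⟩ | ⟨f1, f2⟩)
        · exact ⟨by omega, f2⟩
        · exact ⟨by omega, f2⟩
    · rw [disjoint_left]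
      intro p hp hp'
      rw [mem_filter, mem_range] at hp
      rw [mem_filter, mem_Ioc] at hp'
      omega
  rw [h1]
  push_cast
  ring

/-- the logarithmic integral over a window -/
lemma Li_win (ε : ℝ) (hε : 0 < ε) (hε1 : ε ≤ 1 / 20) (n : ℕ) (u v : ℝ) (hn : 3 ≤ n) (hl : 2 ≤ Real.log n) (hu : 2 ≤ u)
    (huv : 3 * n * Real.log n ^ 2 ≤ ε * (v - u)) (hv : Real.log v ≤ (1 + ε) * Real.log n) :
    |(Li2 v - Li2 u) - (v - u) / Real.log n ^ 2| ≤ 2 * ε * ((v - u) / Real.log n ^ 2) := by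
  have hn0 : (0 : ℝ) < n := by exact_mod_cast (by omega : 0 < n)
  have hn3 : (3 : ℝ) ≤ n := by exact_mod_cast hn
  obtain ⟨l, hld⟩ : ∃ l, l = Real.log (n : ℝ) := ⟨_, rfl⟩
  rw [← hld] at hl huv hv ⊢
  have hl0 : 0 < l := by linarith
  have hnl : 3 * (n : ℝ) ≤ 3 * n * l ^ 2 := le_mul_of_one_le_right (by positivity) (one_le_pow₀ (by linarith))
  have huv0 : 0 < v - u := by
    by_contra hcon
    push Not at hcon
    nlinarith
  have hvn : (n : ℝ) ≤ v := by nlinarith
  have hv2 : 2 ≤ v := by linarith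
  have hsub : Li2 v - Li2 u = ∫ t in u..v, 1 / Real.log t ^ 2 := by
    unfold Li2
    rw [intervalIntegral.integral_interval_sub_left (intble 2 v le_rfl hv2) (intble 2 u le_rfl hu)]
  rw [hsub]
  -- lower bound
  have hlv : Real.log v ^ 2 ≤ (1 + ε) ^ 2 * l ^ 2 := by
    rw [← mul_pow]
    exact pow_le_pow_left₀ (Real.log_nonneg (by linarith)) hv 2
  have hlv0 : 0 < Real.log v := Real.log_pos (by linarith)
  have hlow : (v - u) / Real.log v ^ 2 ≤ ∫ t in u..v, 1 / Real.log t ^ 2 := by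
    have h1 : ∫ _t in u..v, 1 / Real.log v ^ 2 ≤ ∫ t in u..v, 1 / Real.log t ^ 2 := by
      apply intervalIntegral.integral_mono_on (by linarith) (intervalIntegrable_const) (intble u v hu hv2)
      intro t ht
      have h2 : 0 < Real.log t := Real.log_pos (by linarith [ht.1])
      apply one_div_le_one_div_of_le (by positivity)
      exact pow_le_pow_left₀ h2.le (Real.log_le_log (by linarith [ht.1]) ht.2) 2
    rw [intervalIntegral.integral_const, smul_eq_mul] at h1
    refine le_trans (le_of_eq ?_) h1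
    ring
  have hlow2 : (1 - 2 * ε) * ((v - u) / l ^ 2) ≤ (v - u) / Real.log v ^ 2 := by
    rw [le_div_iff₀ (by positivity)]
    calc (1 - 2 * ε) * ((v - u) / l ^ 2) * Real.log v ^ 2 ≤ (1 - 2 * ε) * ((v - u) / l ^ 2) * ((1 + ε) ^ 2 * l ^ 2) := by
          apply mul_le_mul_of_nonneg_left hlv
          have : 0 ≤ 1 - 2 * ε := by linarith
          positivity
      _ = ((1 - 2 * ε) * (1 + ε) ^ 2) * (v - u) := by field_simp
      _ ≤ 1 * (v - u) := by
          apply mul_le_mul_of_nonneg_right _ huv0.le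
          nlinarith [sq_nonneg ε, mul_pos hε hε]
      _ = v - u := one_mul _
  -- upper bound
  obtain ⟨w, hw⟩ : ∃ w, w = max u n := ⟨_, rfl⟩
  have hwu : u ≤ w := by rw [hw]; exact le_max_left _ _
  have hwn : (n : ℝ) ≤ w := by rw [hw]; exact le_max_right _ _
  have hwv : w ≤ v := by rw [hw]; exact max_le (by linarith) hvn
  have hw2 : 2 ≤ w := by linarith
  have hw' : w - u ≤ n := by
    rw [hw]
    rcases le_total u n with h | h
    · rw [max_eq_right h]
      linarith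
    · rw [max_eq_left h]
      linarith
  have hsplit : ∫ t in u..v, 1 / Real.log t ^ 2 = (∫ t in u..w, 1 / Real.log t ^ 2) + ∫ t in w..v, 1 / Real.log t ^ 2 :=
    (intervalIntegral.integral_add_adjacent_intervals (intble u w hu hw2) (intble w v hw2 hv2)).symm
  have hup1 : (∫ t in u..w, 1 / Real.log t ^ 2) ≤ 3 * (n : ℝ) := by
    have h1 : (∫ t in u..w, 1 / Real.log t ^ 2) ≤ ∫ _t in u..w, (3 : ℝ) := by
      apply intervalIntegral.integral_mono_on hwu (intble u w hu hw2) (intervalIntegrable_const)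
      intro t ht
      have h3 := Real.log_two_gt_d9
      have h2 : Real.log 2 ≤ Real.log t := Real.log_le_log (by norm_num) (by linarith [ht.1])
      have h4 : 0 < Real.log t := by linarith
      rw [div_le_iff₀ (by positivity)]
      nlinarith
    rw [intervalIntegral.integral_const, smul_eq_mul] at h1
    nlinarith
  have hup2 : ∫ t in w..v, 1 / Real.log t ^ 2 ≤ (v - u) / l ^ 2 := by
    have h1 : ∫ t in w..v, 1 / Real.log t ^ 2 ≤ ∫ _t in w..v, 1 / l ^ 2 := by
      apply intervalIntegral.integral_mono_on hwv (intble w v hw2 hv2) (intervalIntegrable_const)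
      intro t ht
      apply one_div_le_one_div_of_le (by positivity)
      apply pow_le_pow_left₀ hl0.le
      rw [hld]
      exact Real.log_le_log hn0 (hwn.trans ht.1)
    rw [intervalIntegral.integral_const, smul_eq_mul] at h1
    refine h1.trans ?_
    rw [mul_one_div]
    exact div_le_div_of_nonneg_right (by linarith) (by positivity)
  have h3n : 3 * (n : ℝ) ≤ ε * ((v - u) / l ^ 2) := by
    rw [← mul_div_assoc, le_div_iff₀ (by positivity)]
    exact huv
  have hX0 : 0 ≤ ε * ((v - u) / l ^ 2) := by positivity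
  rw [abs_le, hsplit]
  constructor
  · rw [← hsplit]
    linarith
  · linarith

/-- from the formula at a larger scale -/
theorem rep_of_HoldsP (ε : ℝ) (hε : 0 < ε) (hε1 : ε ≤ 1 / 2) (E T : ℕ) (hE : 3 ≤ E) : ∃ n₀ : ℕ, ∀ n C : ℕ, ∀ x : ℝ, n₀ ≤ n →
    (n : ℝ) * Real.log n ^ (E + T) ≤ x → x / Real.log x ^ C ≤ ε / 10 * (n * Real.log n ^ (E - 3)) → HoldsP C x n → Rep ε E T n := by
  obtain ⟨n1, h1⟩ := ev_loglog (E + T) (ε / 10) (by positivity)
  obtain ⟨n2, h2⟩ := Pool.Agent.H373R2.T7.ev_L' (60 / ε)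
  refine ⟨n1 + n2 + 3, fun n C x hn hx hxC hH u v hu hv huv => ?_⟩
  have c1 := h1 n (by omega)
  have hl60 := h2 n (by omega)
  have hn0 : (0 : ℝ) < n := by exact_mod_cast (by omega : 0 < n)
  have hn3 : (3 : ℝ) ≤ n := by exact_mod_cast (by omega : 3 ≤ n)
  obtain ⟨l, hld⟩ : ∃ l, l = Real.log (n : ℝ) := ⟨_, rfl⟩
  rw [← hld] at hl60 hv huv hx hxC ⊢
  rw [div_le_iff₀ hε] at hl60
  have hl120 : 120 ≤ l := by nlinarith
  have hl1 : 1 ≤ l := by linarith
  have hl0 : 0 < l := by linarith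
  have hs1 : 1 ≤ sing n := Pool.Agent.R460.GS.one_le_sing n
  have hs0 : 0 < sing n := by linarith
  -- the length of the window
  obtain ⟨D, hD⟩ : ∃ D, D = v - u := ⟨_, rfl⟩
  have hDE : (n : ℝ) * l ^ (E - 3) * l ^ 3 ≤ D := by
    rw [hD]
    refine le_trans (le_of_eq ?_) huv
    rw [mul_assoc, ← pow_add]
    congr 2
    omega
  have hP1 : 1 ≤ l ^ (E - 3) := one_le_pow₀ hl1
  have hD3 : (n : ℝ) * l ^ 3 ≤ D := by
    refine le_trans ?_ hDE
    apply mul_le_mul_of_nonneg_right _ (by positivity)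
    exact le_mul_of_one_le_right hn0.le hP1
  have hD0 : 0 < D := lt_of_lt_of_le (by positivity) hD3
  have hvu : u ≤ v := by linarith
  obtain ⟨u', hu'⟩ : ∃ u', u' = max u 2 := ⟨_, rfl⟩
  have hu'2 : 2 ≤ u' := by rw [hu']; exact le_max_right _ _
  have hu'u : u ≤ u' := by rw [hu']; exact le_max_left _ _
  have hu'u2 : u' ≤ u + 2 := by rw [hu']; exact max_le (by linarith) (by linarith)
  have hl3 : l ^ 2 ≤ l ^ 3 := pow_le_pow_right₀ hl1 (by norm_num)
  have hnl3 : (3 : ℝ) ≤ n * l ^ 3 := by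
    have : (1 : ℝ) ≤ l ^ 3 := one_le_pow₀ hl1
    nlinarith
  have hεD : 60 * (n : ℝ) * l ^ 2 ≤ ε * D := by
    calc 60 * (n : ℝ) * l ^ 2 ≤ (l * ε) * n * l ^ 2 := by
          apply mul_le_mul_of_nonneg_right _ (by positivity)
          exact mul_le_mul_of_nonneg_right hl60 hn0.le
      _ = ε * (n * l ^ 3) := by ring
      _ ≤ ε * D := mul_le_mul_of_nonneg_left hD3 hε.le
  have hnl2 : (1 : ℝ) ≤ l ^ 2 := one_le_pow₀ hl1
  have hv2 : 2 ≤ v := by nlinarith
  have hu'v : u' ≤ v := by rw [hu']; exact max_le hvu hv2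
  have hLi := Li_win (ε / 10) (by positivity) (by linarith) n u' v (by omega) (by rw [← hld]; linarith) hu'2 (by
    rw [← hld]
    have e1 : ε / 10 * (v - u') ≥ ε / 10 * (D - 2) := by
      apply mul_le_mul_of_nonneg_left _ (by positivity)
      linarith
    nlinarith) (by
    rw [← hld]
    have e1 : v ≤ n * Real.log n ^ (E + T) := by rw [← hld]; exact hv
    have e2 : (n : ℝ) ≤ v := by nlinarith
    have e3 := (log_ratio (E + T) (ε / 10) n v (by omega) c1 e2 e1).2
    rwa [← hld] at e3)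
  rw [← hld] at hLi
  -- the counts
  have g1 := hH v hv2 (hv.trans hx)
  have g2 := hH u' hu'2 (hu'v.trans (hv.trans hx))
  have hcP : cP n = sing n := rfl
  rw [hcP] at g1 g2
  have hLv : (∫ t in (2 : ℝ)..v, 1 / Real.log t ^ 2) = Li2 v := rfl
  have hLu : (∫ t in (2 : ℝ)..u', 1 / Real.log t ^ 2) = Li2 u' := rfl
  rw [hLv] at g1
  rw [hLu] at g2
  have hpu : (piP n u : ℝ) ≤ piP n u' ∧ (piP n u' : ℝ) ≤ piP n u + 3 := by
    have e1 : piP n u' ≤ piP n u + 3 := by
      rw [hu']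
      rcases le_total u 2 with h | h
      · rw [max_eq_right h]
        have : piP n 2 ≤ 3 := by
          unfold piP
          refine (card_filter_le _ _).trans ?_
          rw [card_range]
          have : ⌊(2 : ℝ)⌋₊ = 2 := Nat.floor_ofNat 2
          omega
        omega
      · rw [max_eq_left h]
        omega
    have e2 : piP n u ≤ piP n u' := by
      unfold piP
      apply card_le_card
      apply filter_subset_filter
      intro p hp
      rw [mem_range] at hp ⊢
      have := Nat.floor_le_floor hu'u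
      omega
    exact ⟨by exact_mod_cast e2, by exact_mod_cast e1⟩
  have hwin := piP_sub n u v hvu
  rw [hwin]
  -- the error terms
  obtain ⟨X, hX⟩ : ∃ X, X = sing n * D / l ^ 2 := ⟨_, rfl⟩
  have hX1 : D / l ^ 2 ≤ X := by
    rw [hX]
    apply div_le_div_of_nonneg_right _ (by positivity)
    exact le_mul_of_one_le_left hD0.le hs1
  have hX0 : 0 ≤ X := le_trans (by positivity) hX1
  have herr : x / Real.log x ^ C ≤ ε / 10 * X := by
    refine hxC.trans (mul_le_mul_of_nonneg_left (le_trans ?_ hX1) (by positivity))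
    rw [le_div_iff₀ (by positivity)]
    refine le_trans ?_ hDE
    exact mul_le_mul_of_nonneg_left hl3 (by positivity)
  have h60 : 60 * (n : ℝ) ≤ ε * X := by
    have e1 : 60 * (n : ℝ) ≤ ε * (D / l ^ 2) := by
      rw [← mul_div_assoc, le_div_iff₀ (by positivity)]
      exact hεD
    exact e1.trans (mul_le_mul_of_nonneg_left hX1 hε.le)
  have hY : |sing n * (Li2 v - Li2 u') - sing n * ((v - u') / l ^ 2)| ≤ ε / 5 * X := by
    rw [← mul_sub, abs_mul, abs_of_pos hs0]
    calc sing n * |(Li2 v - Li2 u') - (v - u') / l ^ 2| ≤ sing n * (2 * (ε / 10) * ((v - u') / l ^ 2)) :=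
          mul_le_mul_of_nonneg_left hLi hs0.le
      _ ≤ sing n * (2 * (ε / 10) * (D / l ^ 2)) := by
          apply mul_le_mul_of_nonneg_left _ hs0.le
          apply mul_le_mul_of_nonneg_left _ (by positivity)
          exact div_le_div_of_nonneg_right (by linarith) (by positivity)
      _ = ε / 5 * X := by rw [hX]; ring
  have hZ : |sing n * ((v - u') / l ^ 2) - X| ≤ ε / 10 * X := by
    have e1 : sing n * ((v - u') / l ^ 2) - X = - (sing n * ((u' - u) / l ^ 2)) := by
      rw [hX, hD]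
      ring
    rw [e1, abs_neg, abs_of_nonneg (by have : 0 ≤ u' - u := by linarith
                                       positivity)]
    have e2 : (u' - u) / l ^ 2 ≤ ε / 10 * (D / l ^ 2) := by
      rw [← mul_div_assoc]
      apply div_le_div_of_nonneg_right _ (by positivity)
      nlinarith
    calc sing n * ((u' - u) / l ^ 2) ≤ sing n * (ε / 10 * (D / l ^ 2)) := mul_le_mul_of_nonneg_left e2 hs0.le
      _ = ε / 10 * X := by rw [hX]; ring
  have hfin : sing n * (v - u) / l ^ 2 = X := by rw [hX, hD]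
  rw [hfin]
  have k1 := abs_le.1 g1
  have k2 := abs_le.1 g2
  have k3 := abs_le.1 hY
  have k4 := abs_le.1 hZ
  have hn1' : (1 : ℝ) ≤ n := by linarith
  rw [abs_le]
  constructor
  · have := hpu.1
    nlinarith [k1.1, k2.2, k3.1, k4.1]
  · have := hpu.2
    nlinarith [k1.2, k2.1, k3.2, k4.2]

end Pool.Agent.T9h51.RC
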